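import Pool.Agent.Stair97.Germ

/-!
# Euclid weights of a real number
-/

set_option autoImplicit false

namespace Stair97

open Filter Topology Set

/-- one subtractive Euclid step -/
def est (s : ℝ × ℝ) : ℝ × ℝ := (max (s.1 - s.2) s.2, min (s.1 - s.2) s.2)

/-- the state after `n` Euclid steps, starting with `(z, 1)` -/
def eus (z : ℝ) (n : ℕ) : ℝ × ℝ := est^[n] (z, 1)

/-- the Euclid weights of `z` -/
def ew (z : ℝ) (i : ℕ) : ℝ := (eus z i).2

theorem eus_zero (z : ℝ) : eus z 0 = (z, 1) := rfl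

theorem eus_succ (z : ℝ) (n : ℕ) : eus z (n + 1) = est (eus z n) := by
  unfold eus
  rw [Function.iterate_succ_apply']

theorem eus_succ_fst (z : ℝ) (n : ℕ) :
    (eus z (n + 1)).1 = max ((eus z n).1 - (eus z n).2) (eus z n).2 := by
  rw [eus_succ]; rfl

theorem eus_succ_snd (z : ℝ) (n : ℕ) :
    (eus z (n + 1)).2 = min ((eus z n).1 - (eus z n).2) (eus z n).2 := by
  rw [eus_succ]; rfl

theorem ew_def (z : ℝ) (n : ℕ) : ew z n = (eus z n).2 := rfl

theorem ew_zero (z : ℝ) : ew z 0 = 1 := rfl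

/-! ### continuity and germs -/

theorem continuous_eus (n : ℕ) :
    Continuous (fun z => (eus z n).1) ∧ Continuous (fun z => (eus z n).2) := by
  induction n with
  | zero => exact ⟨continuous_id, continuous_const⟩
  | succ n ih =>
    obtain ⟨h1, h2⟩ := ih
    refine ⟨?_, ?_⟩
    · simp only [eus_succ_fst]
      exact (h1.sub h2).max h2
    · simp only [eus_succ_snd]
      exact (h1.sub h2).min h2

theorem continuous_ew (n : ℕ) : Continuous (fun z => ew z n) := (continuous_eus n).2

theorem RG_eus (a : ℝ) (n : ℕ) : RG a (fun z => (eus z n).1) ∧ RG a (fun z => (eus z n).2) := by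
  induction n with
  | zero => exact ⟨RG.id a, RG.const a 1⟩
  | succ n ih =>
    obtain ⟨h1, h2⟩ := ih
    refine ⟨?_, ?_⟩
    · simp only [eus_succ_fst]
      exact (h1.sub h2).max h2
    · simp only [eus_succ_snd]
      exact (h1.sub h2).min h2

theorem LG_eus (a : ℝ) (n : ℕ) : LG a (fun z => (eus z n).1) ∧ LG a (fun z => (eus z n).2) := by
  induction n with
  | zero => exact ⟨LG.id a, LG.const a 1⟩
  | succ n ih =>
    obtain ⟨h1, h2⟩ := ih
    refine ⟨?_, ?_⟩
    · simp only [eus_succ_fst]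
      exact (h1.sub h2).max h2
    · simp only [eus_succ_snd]
      exact (h1.sub h2).min h2

theorem RG_ew (a : ℝ) (n : ℕ) : RG a (fun z => ew z n) := (RG_eus a n).2

theorem LG_ew (a : ℝ) (n : ℕ) : LG a (fun z => ew z n) := (LG_eus a n).2

/-! ### order -/

theorem eus_order {z : ℝ} (hz : 1 ≤ z) (n : ℕ) : 0 ≤ (eus z n).2 ∧ (eus z n).2 ≤ (eus z n).1 := by
  induction n with
  | zero => exact ⟨zero_le_one, hz⟩
  | succ n ih =>
    obtain ⟨h1, h2⟩ := ih
    rw [eus_succ_fst, eus_succ_snd]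
    exact ⟨le_min (by linarith) h1, min_le_max⟩

theorem ew_nonneg {z : ℝ} (hz : 1 ≤ z) (n : ℕ) : 0 ≤ ew z n := (eus_order hz n).1

theorem ew_le_fst {z : ℝ} (hz : 1 ≤ z) (n : ℕ) : ew z n ≤ (eus z n).1 := (eus_order hz n).2

theorem eus_fst_nonneg {z : ℝ} (hz : 1 ≤ z) (n : ℕ) : 0 ≤ (eus z n).1 :=
  (ew_nonneg hz n).trans (ew_le_fst hz n)

theorem ew_succ_le (z : ℝ) (n : ℕ) : ew z (n + 1) ≤ ew z n := by
  rw [ew_def, ew_def, eus_succ_snd]
  exact min_le_right _ _

theorem ew_antitone (z : ℝ) : Antitone (ew z) := antitone_nat_of_succ_le (ew_succ_le z)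

theorem ew_le_one (z : ℝ) (n : ℕ) : ew z n ≤ 1 := by
  have := ew_antitone z (Nat.zero_le n)
  rwa [ew_zero] at this

theorem eus_fst_succ_le {z : ℝ} (hz : 1 ≤ z) (n : ℕ) : (eus z (n + 1)).1 ≤ (eus z n).1 := by
  rw [eus_succ_fst]
  have := eus_order hz n
  exact max_le (by linarith) this.2

theorem eus_fst_antitone {z : ℝ} (hz : 1 ≤ z) : Antitone (fun n => (eus z n).1) :=
  antitone_nat_of_succ_le (eus_fst_succ_le hz)

theorem eus_fst_le {z : ℝ} (hz : 1 ≤ z) (n : ℕ) : (eus z n).1 ≤ z :=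
  eus_fst_antitone hz (Nat.zero_le n)

/-! ### the two identities -/

theorem sum_ew_sq (z : ℝ) (n : ℕ) :
    ∑ i ∈ Finset.range n, ew z i ^ 2 + (eus z n).1 * (eus z n).2 = z := by
  induction n with
  | zero => simp [eus_zero]
  | succ n ih =>
    rw [Finset.sum_range_succ, eus_succ_fst, eus_succ_snd, max_mul_min]
    rw [ew_def]
    linarith

theorem sum_ew (z : ℝ) (n : ℕ) :
    ∑ i ∈ Finset.range n, ew z i + (eus z n).1 + (eus z n).2 = z + 1 := by
  induction n with
  | zero => simp [eus_zero]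
  | succ n ih =>
    have h := max_add_min ((eus z n).1 - (eus z n).2) (eus z n).2
    rw [Finset.sum_range_succ, eus_succ_fst, eus_succ_snd, ew_def]
    linarith

theorem sum_ew_sq_le {z : ℝ} (hz : 1 ≤ z) (n : ℕ) : ∑ i ∈ Finset.range n, ew z i ^ 2 ≤ z := by
  have h := sum_ew_sq z n
  have h2 := mul_nonneg (eus_fst_nonneg hz n) (ew_nonneg hz n)
  rw [ew_def] at h2
  linarith

theorem sum_ew_le {z : ℝ} (hz : 1 ≤ z) (n : ℕ) : ∑ i ∈ Finset.range n, ew z i ≤ z + 1 := by
  have h := sum_ew z n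
  have h2 := eus_fst_nonneg hz n
  have h3 := ew_nonneg hz n
  rw [ew_def] at h3
  linarith

theorem summable_ew {z : ℝ} (hz : 1 ≤ z) : Summable (ew z) :=
  summable_of_sum_range_le (fun n => ew_nonneg hz n) (sum_ew_le hz)

theorem tendsto_ew {z : ℝ} (hz : 1 ≤ z) : Tendsto (ew z) atTop (𝓝 0) :=
  (summable_ew hz).tendsto_atTop_zero

theorem summable_ew_sq {z : ℝ} (hz : 1 ≤ z) : Summable (fun i => ew z i ^ 2) :=
  summable_of_sum_range_le (fun n => sq_nonneg _) (sum_ew_sq_le hz)

theorem tendsto_eus_mul {z : ℝ} (hz : 1 ≤ z) :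
    Tendsto (fun n => (eus z n).1 * (eus z n).2) atTop (𝓝 0) := by
  have h1 : Tendsto (fun n => z * ew z n) atTop (𝓝 0) := by
    simpa using (tendsto_ew hz).const_mul z
  refine squeeze_zero (fun n => mul_nonneg (eus_fst_nonneg hz n) (ew_nonneg hz n)) (fun n => ?_) h1
  exact mul_le_mul_of_nonneg_right (eus_fst_le hz n) (ew_nonneg hz n)

theorem hasSum_ew_sq {z : ℝ} (hz : 1 ≤ z) : HasSum (fun i => ew z i ^ 2) z := by
  rw [(summable_ew_sq hz).hasSum_iff_tendsto_nat]
  have h1 : Tendsto (fun n => z - (eus z n).1 * (eus z n).2) atTop (𝓝 (z - 0)) :=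
    tendsto_const_nhds.sub (tendsto_eus_mul hz)
  rw [sub_zero] at h1
  refine h1.congr fun n => ?_
  have := sum_ew_sq z n
  linarith

theorem tsum_ew_sq {z : ℝ} (hz : 1 ≤ z) : ∑' i, ew z i ^ 2 = z := (hasSum_ew_sq hz).tsum_eq

/-- the sum of the tail of the squares -/
theorem tsum_ew_sq_tail {z : ℝ} (hz : 1 ≤ z) (n : ℕ) :
    ∑' i, ew z (i + n) ^ 2 = (eus z n).1 * (eus z n).2 := by
  have h1 := (summable_ew_sq hz).sum_add_tsum_nat_add n
  have h2 := sum_ew_sq z n
  rw [tsum_ew_sq hz] at h1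
  linarith

theorem tsum_ew_le {z : ℝ} (hz : 1 ≤ z) : ∑' i, ew z i ≤ z + 1 :=
  (summable_ew hz).tsum_le_of_sum_range_le (sum_ew_le hz)

/-- the sum of the tail of the weights -/
theorem tsum_ew_tail_le {z : ℝ} (hz : 1 ≤ z) (n : ℕ) :
    ∑' i, ew z (i + n) ≤ (eus z n).1 + (eus z n).2 := by
  have h1 := (summable_ew hz).sum_add_tsum_nat_add n
  have h2 := sum_ew z n
  have h3 := tsum_ew_le hz
  linarith

/-! ### one-sided affine pieces -/

/-- a one-sided neighbourhood filter of `z₀`, abstractly -/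
structure Side (F : Filter ℝ) (z₀ : ℝ) : Prop where
  ne : F.NeBot
  le : F ≤ 𝓝 z₀
  sgn : ∀ α β : ℝ, (∀ᶠ z in F, 0 ≤ α + β * z) ∨ (∀ᶠ z in F, α + β * z ≤ 0)

theorem side_right (z₀ : ℝ) : Side (𝓝[>] z₀) z₀ where
  ne := inferInstance
  le := nhdsWithin_le_nhds
  sgn := fun α β => by
    rcases le_total 0 (α + β * z₀) with h | h
    · rcases h.eq_or_lt with h0 | h0
      · rcases le_total 0 β with hb | hb
        · left
          filter_upwards [self_mem_nhdsWithin] with z hz
          have : (0 : ℝ) ≤ β * (z - z₀) := mul_nonneg hb (by have : z₀ < z := hz; linarith)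
          linarith
        · right
          filter_upwards [self_mem_nhdsWithin] with z hz
          have : β * (z - z₀) ≤ 0 :=
            mul_nonpos_of_nonpos_of_nonneg hb (by have : z₀ < z := hz; linarith)
          linarith
      · left
        have hc : ContinuousAt (fun z : ℝ => α + β * z) z₀ := by fun_prop
        exact ((hc.eventually (lt_mem_nhds h0)).filter_mono nhdsWithin_le_nhds).mono
          fun z hz => le_of_lt hz
    · rcases h.eq_or_lt with h0 | h0
      · rcases le_total 0 β with hb | hb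
        · left
          filter_upwards [self_mem_nhdsWithin] with z hz
          have : (0 : ℝ) ≤ β * (z - z₀) := mul_nonneg hb (by have : z₀ < z := hz; linarith)
          linarith
        · right
          filter_upwards [self_mem_nhdsWithin] with z hz
          have : β * (z - z₀) ≤ 0 :=
            mul_nonpos_of_nonpos_of_nonneg hb (by have : z₀ < z := hz; linarith)
          linarith
      · right
        have hc : ContinuousAt (fun z : ℝ => α + β * z) z₀ := by fun_prop
        exact ((hc.eventually (gt_mem_nhds h0)).filter_mono nhdsWithin_le_nhds).mono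
          fun z hz => le_of_lt hz

theorem side_left (z₀ : ℝ) : Side (𝓝[<] z₀) z₀ where
  ne := inferInstance
  le := nhdsWithin_le_nhds
  sgn := fun α β => by
    rcases le_total 0 (α + β * z₀) with h | h
    · rcases h.eq_or_lt with h0 | h0
      · rcases le_total 0 β with hb | hb
        · right
          filter_upwards [self_mem_nhdsWithin] with z hz
          have : β * (z - z₀) ≤ 0 :=
            mul_nonpos_of_nonneg_of_nonpos hb (by have : z < z₀ := hz; linarith)
          linarith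
        · left
          filter_upwards [self_mem_nhdsWithin] with z hz
          have : (0 : ℝ) ≤ β * (z - z₀) :=
            mul_nonneg_of_nonpos_of_nonpos hb (by have : z < z₀ := hz; linarith)
          linarith
      · left
        have hc : ContinuousAt (fun z : ℝ => α + β * z) z₀ := by fun_prop
        exact ((hc.eventually (lt_mem_nhds h0)).filter_mono nhdsWithin_le_nhds).mono
          fun z hz => le_of_lt hz
    · rcases h.eq_or_lt with h0 | h0
      · rcases le_total 0 β with hb | hb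
        · right
          filter_upwards [self_mem_nhdsWithin] with z hz
          have : β * (z - z₀) ≤ 0 :=
            mul_nonpos_of_nonneg_of_nonpos hb (by have : z < z₀ := hz; linarith)
          linarith
        · left
          filter_upwards [self_mem_nhdsWithin] with z hz
          have : (0 : ℝ) ≤ β * (z - z₀) :=
            mul_nonneg_of_nonpos_of_nonpos hb (by have : z < z₀ := hz; linarith)
          linarith
      · right
        have hc : ContinuousAt (fun z : ℝ => α + β * z) z₀ := by fun_prop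
        exact ((hc.eventually (gt_mem_nhds h0)).filter_mono nhdsWithin_le_nhds).mono
          fun z hz => le_of_lt hz

/-- on each side of a point the states are integral affine functions with determinant `± 1` -/
theorem eus_affine {F : Filter ℝ} {z₀ : ℝ} (hF : Side F z₀) (n : ℕ) :
    ∃ a b c d : ℤ, (a * d - b * c = 1 ∨ a * d - b * c = -1) ∧
      ∀ᶠ z in F, (eus z n).1 = a + b * z ∧ (eus z n).2 = c + d * z := by
  induction n with
  | zero =>
    exact ⟨0, 1, 1, 0, Or.inr (by norm_num), Eventually.of_forall fun z => by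
      rw [eus_zero]; constructor <;> simp⟩
  | succ n ih =>
    obtain ⟨a, b, c, d, hdet, hev⟩ := ih
    rcases hF.sgn ((a : ℝ) - 2 * c) ((b : ℝ) - 2 * d) with h | h
    · refine ⟨a - c, b - d, c, d, ?_, ?_⟩
      · rcases hdet with h1 | h1
        · left; linear_combination h1
        · right; linear_combination h1
      · filter_upwards [hev, h] with z hz hz'
        rw [eus_succ_fst, eus_succ_snd, hz.1, hz.2]
        have h3 : (c : ℝ) + d * z ≤ a + b * z - (c + d * z) := by linarith
        rw [max_eq_left h3, min_eq_right h3]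
        push_cast
        constructor
        · ring
        · ring
    · refine ⟨c, d, a - c, b - d, ?_, ?_⟩
      · rcases hdet with h1 | h1
        · right; linear_combination -h1
        · left; linear_combination -h1
      · filter_upwards [hev, h] with z hz hz'
        rw [eus_succ_fst, eus_succ_snd, hz.1, hz.2]
        have h3 : a + b * z - (c + d * z) ≤ (c : ℝ) + d * z := by linarith
        rw [max_eq_right h3, min_eq_left h3]
        push_cast
        constructor
        · ring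
        · ring

/-- the affine functions have the right value at the point itself -/
theorem eus_affine_at {F : Filter ℝ} {z₀ : ℝ} (hF : Side F z₀) {n : ℕ} {a b c d : ℝ}
    (h : ∀ᶠ z in F, (eus z n).1 = a + b * z ∧ (eus z n).2 = c + d * z) :
    (eus z₀ n).1 = a + b * z₀ ∧ (eus z₀ n).2 = c + d * z₀ := by
  haveI := hF.ne
  have hc := continuous_eus n
  have t1 : Tendsto (fun z => (eus z n).1) F (𝓝 (eus z₀ n).1) := (hc.1.tendsto z₀).mono_left hF.le
  have t2 : Tendsto (fun z => (eus z n).2) F (𝓝 (eus z₀ n).2) := (hc.2.tendsto z₀).mono_left hF.le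
  have u1 : Tendsto (fun z => a + b * z) F (𝓝 (a + b * z₀)) :=
    ((by fun_prop : Continuous fun z : ℝ => a + b * z).tendsto z₀).mono_left hF.le
  have u2 : Tendsto (fun z => c + d * z) F (𝓝 (c + d * z₀)) :=
    ((by fun_prop : Continuous fun z : ℝ => c + d * z).tendsto z₀).mono_left hF.le
  exact ⟨tendsto_nhds_unique (t1.congr' (h.mono fun z hz => hz.1)) u1,
    tendsto_nhds_unique (t2.congr' (h.mono fun z hz => hz.2)) u2⟩

/-- the weights are integral affine functions on each side, with the right value at `z₀` -/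
theorem ew_affine {F : Filter ℝ} {z₀ : ℝ} (hF : Side F z₀) (n : ℕ) :
    ∃ c d : ℤ, (∀ᶠ z in F, ew z n = c + d * z) ∧ ew z₀ n = c + d * z₀ := by
  obtain ⟨a, b, c, d, -, h⟩ := eus_affine hF n
  exact ⟨c, d, h.mono fun z hz => hz.2, (eus_affine_at hF h).2⟩

/-- polarised identity on each side -/
theorem sum_ew_mul {F : Filter ℝ} {z₀ : ℝ} (hF : Side F z₀) (n : ℕ) :
    ∀ᶠ z in F, ∑ i ∈ Finset.range n, ew z i * ew z₀ i +
      ((eus z n).1 * (eus z₀ n).2 + (eus z n).2 * (eus z₀ n).1) / 2 = (z + z₀) / 2 := by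
  haveI := hF.ne
  induction n with
  | zero =>
    refine Eventually.of_forall fun z => ?_
    simp [eus_zero]
  | succ n ih =>
    obtain ⟨a, b, c, d, hdet, hev⟩ := eus_affine hF n
    have hat := eus_affine_at hF hev
    have hlim : Tendsto (fun z : ℝ => (a : ℝ) - 2 * c + (b - 2 * d) * z) F
        (𝓝 ((a : ℝ) - 2 * c + (b - 2 * d) * z₀)) :=
      ((by fun_prop : Continuous fun z : ℝ => (a : ℝ) - 2 * c + (b - 2 * d) * z).tendsto
        z₀).mono_left hF.le
    rcases hF.sgn ((a : ℝ) - 2 * c) ((b : ℝ) - 2 * d) with h | h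
    · have h0 : 0 ≤ (a : ℝ) - 2 * c + (b - 2 * d) * z₀ := ge_of_tendsto hlim h
      filter_upwards [hev, h, ih] with z hz hz' hz''
      have h3 : (eus z n).2 ≤ (eus z n).1 - (eus z n).2 := by rw [hz.1, hz.2]; linarith
      have h4 : (eus z₀ n).2 ≤ (eus z₀ n).1 - (eus z₀ n).2 := by rw [hat.1, hat.2]; linarith
      rw [Finset.sum_range_succ, eus_succ_fst, eus_succ_snd, eus_succ_fst, eus_succ_snd,
        max_eq_left h3, min_eq_right h3, max_eq_left h4, min_eq_right h4, ew_def, ew_def]
      linarith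
    · have h0 : (a : ℝ) - 2 * c + (b - 2 * d) * z₀ ≤ 0 := le_of_tendsto hlim h
      filter_upwards [hev, h, ih] with z hz hz' hz''
      have h3 : (eus z n).1 - (eus z n).2 ≤ (eus z n).2 := by rw [hz.1, hz.2]; linarith
      have h4 : (eus z₀ n).1 - (eus z₀ n).2 ≤ (eus z₀ n).2 := by rw [hat.1, hat.2]; linarith
      rw [Finset.sum_range_succ, eus_succ_fst, eus_succ_snd, eus_succ_fst, eus_succ_snd,
        max_eq_right h3, min_eq_left h3, max_eq_right h4, min_eq_left h4, ew_def, ew_def]
      linarith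

/-! ### rational numbers -/

/-- the integer states of `p / q` -/
theorem eus_rat {p q : ℕ} (hq : 0 < q) (hpq : q ≤ p) (n : ℕ) :
    ∃ x y : ℕ, y ≤ x ∧ x.gcd y = p.gcd q ∧ (eus ((p : ℝ) / q) n).1 = x / q ∧
      (eus ((p : ℝ) / q) n).2 = y / q := by
  have hq' : (0 : ℝ) < q := by exact_mod_cast hq
  induction n with
  | zero =>
    exact ⟨p, q, hpq, rfl, rfl, by rw [eus_zero]; field_simp⟩
  | succ n ih =>
    obtain ⟨x, y, hyx, hg, h1, h2⟩ := ih
    have hsub : ((x - y : ℕ) : ℝ) = x - y := Nat.cast_sub hyx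
    have hgs : (x - y).gcd y = p.gcd q := by
      rw [Nat.gcd_sub_self_left hyx, hg]
    rcases le_total y (x - y) with h | h
    · refine ⟨x - y, y, h, hgs, ?_, ?_⟩
      · rw [eus_succ_fst, h1, h2, hsub, max_eq_left, sub_div]
        rw [← sub_div, ← hsub]
        exact div_le_div_of_nonneg_right (by exact_mod_cast h) hq'.le
      · rw [eus_succ_snd, h1, h2, min_eq_right]
        rw [← sub_div, ← hsub]
        exact div_le_div_of_nonneg_right (by exact_mod_cast h) hq'.le
    · refine ⟨y, x - y, h, by rw [Nat.gcd_comm, hgs], ?_, ?_⟩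
      · rw [eus_succ_fst, h1, h2, max_eq_right]
        rw [← sub_div, ← hsub]
        exact div_le_div_of_nonneg_right (by exact_mod_cast h) hq'.le
      · rw [eus_succ_snd, h1, h2, hsub, min_eq_left, sub_div]
        rw [← sub_div, ← hsub]
        exact div_le_div_of_nonneg_right (by exact_mod_cast h) hq'.le

/-- all weights of `p / q` are integer multiples of `1 / q` -/
theorem ew_rat {p q : ℕ} (hq : 0 < q) (hpq : q ≤ p) (n : ℕ) :
    ∃ y : ℕ, ew ((p : ℝ) / q) n = y / q := by
  obtain ⟨x, y, -, -, -, h⟩ := eus_rat hq hpq n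
  exact ⟨y, h⟩

theorem one_le_div {p q : ℕ} (hq : 0 < q) (hpq : q ≤ p) : (1 : ℝ) ≤ (p : ℝ) / q := by
  have hq' : (0 : ℝ) < q := by exact_mod_cast hq
  rw [le_div_iff₀ hq', one_mul]
  exact_mod_cast hpq

/-- the algorithm terminates at a rational number -/
theorem exists_ew_zero {p q : ℕ} (hq : 0 < q) (hpq : q ≤ p) : ∃ n, ew ((p : ℝ) / q) n = 0 := by
  have hq' : (0 : ℝ) < q := by exact_mod_cast hq
  have hz := one_le_div hq hpq
  have ht := tendsto_ew hz
  have h1 : ∀ᶠ n in atTop, ew ((p : ℝ) / q) n < 1 / q :=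
    ht.eventually (gt_mem_nhds (by positivity))
  obtain ⟨n, hn⟩ := h1.exists
  obtain ⟨y, hy⟩ := ew_rat hq hpq n
  refine ⟨n, ?_⟩
  rw [hy] at hn ⊢
  have : (y : ℝ) < 1 := by
    rw [div_lt_div_iff_of_pos_right hq'] at hn
    exact hn
  have : y = 0 := by
    have : y < 1 := by exact_mod_cast this
    omega
  rw [this]
  simp

theorem eus_fst_of_zero {p q : ℕ} (hq : 0 < q) (hpq : q ≤ p) (hc : p.Coprime q) {n : ℕ}
    (hn : ew ((p : ℝ) / q) n = 0) : (eus ((p : ℝ) / q) n).1 = 1 / q := by
  have hq' : (0 : ℝ) < q := by exact_mod_cast hq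
  obtain ⟨x, y, hyx, hg, h1, h2⟩ := eus_rat hq hpq n
  rw [ew_def, h2] at hn
  have hy : y = 0 := by
    have : (y : ℝ) = 0 := by
      rcases div_eq_zero_iff.1 hn with h | h
      · exact h
      · exact absurd h hq'.ne'
    exact_mod_cast this
  rw [hy, Nat.gcd_zero_right, Nat.coprime_iff_gcd_eq_one.1 hc] at hg
  rw [h1, hg]
  simp

theorem ew_zero_of_le {z : ℝ} (hz : 1 ≤ z) {n m : ℕ} (hnm : n ≤ m) (hn : ew z n = 0) :
    ew z m = 0 :=
  le_antisymm (hn ▸ ew_antitone z hnm) (ew_nonneg hz m)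

theorem sum_ew_rat {p q : ℕ} (hq : 0 < q) (hpq : q ≤ p) (hc : p.Coprime q) {n : ℕ}
    (hn : ew ((p : ℝ) / q) n = 0) :
    ∑ i ∈ Finset.range n, ew ((p : ℝ) / q) i = (p : ℝ) / q + 1 - 1 / q := by
  have h := sum_ew ((p : ℝ) / q) n
  have h1 := eus_fst_of_zero hq hpq hc hn
  rw [ew_def] at hn
  rw [h1, hn] at h
  linarith

theorem sum_ew_sq_rat {p q : ℕ} (hq : 0 < q) (hpq : q ≤ p) {n : ℕ}
    (hn : ew ((p : ℝ) / q) n = 0) :
    ∑ i ∈ Finset.range n, ew ((p : ℝ) / q) i ^ 2 = (p : ℝ) / q := by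
  have h := sum_ew_sq ((p : ℝ) / q) n
  rw [ew_def] at hn
  rw [hn] at h
  linarith

theorem tsum_ew_rat {p q : ℕ} (hq : 0 < q) (hpq : q ≤ p) (hc : p.Coprime q) :
    ∑' i, ew ((p : ℝ) / q) i = (p : ℝ) / q + 1 - 1 / q := by
  obtain ⟨n, hn⟩ := exists_ew_zero hq hpq
  rw [← sum_ew_rat hq hpq hc hn]
  refine tsum_eq_sum fun i hi => ?_
  rw [Finset.mem_range, not_lt] at hi
  exact ew_zero_of_le (one_le_div hq hpq) hi hn

/-- near a rational number, once the algorithm for `p / q` has stopped, the smaller number of the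
state is `|q z - p|` -/
theorem eus_snd_near {F : Filter ℝ} {p q : ℕ} (hq : 0 < q) (hc : p.Coprime q)
    (hF : Side F ((p : ℝ) / q)) (hF1 : ∀ᶠ z in F, 1 ≤ z) {n : ℕ}
    (hn : ew ((p : ℝ) / q) n = 0) : ∀ᶠ z in F, (eus z n).2 = |q * z - p| := by
  have hq' : (0 : ℝ) < q := by exact_mod_cast hq
  obtain ⟨a, b, c, d, hdet, hev⟩ := eus_affine hF n
  have hat := eus_affine_at hF hev
  rw [ew_def, hat.2] at hn
  have h1 : (c : ℝ) * q + d * p = 0 := by
    have : ((c : ℝ) + d * ((p : ℝ) / q)) * q = 0 := by rw [hn, zero_mul]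
    field_simp at this
    linarith
  have h2 : c * q + d * p = 0 := by exact_mod_cast h1
  have hpq : IsCoprime (p : ℤ) (q : ℤ) := Nat.isCoprime_iff_coprime.2 hc
  -- `q ∣ d`
  have h3 : (q : ℤ) ∣ d := by
    have : (q : ℤ) ∣ d * p := ⟨-c, by linarith⟩
    exact hpq.symm.dvd_of_dvd_mul_right this
  obtain ⟨t, ht⟩ := h3
  have h4 : c = -(t * p) := by
    have hq0 : (q : ℤ) ≠ 0 := by exact_mod_cast hq.ne'
    apply mul_right_cancel₀ hq0
    rw [ht] at h2
    linarith
  have h5 : t ∣ a * d - b * c := by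
    rw [ht, h4]
    exact ⟨a * q + b * p, by ring⟩
  have h6 : t = 1 ∨ t = -1 := by
    have : IsUnit t := by
      rcases hdet with h | h
      · rw [h] at h5; exact isUnit_of_dvd_one h5
      · rw [h] at h5; exact isUnit_of_dvd_one ((dvd_neg).1 h5)
    exact Int.isUnit_iff.1 this
  filter_upwards [hev, hF1] with z hz hz1
  have h7 := (eus_order hz1 n).1
  have h8 : (eus z n).2 = t * (q * z - p) := by
    rw [hz.2, ht, h4]
    push_cast
    ring
  rw [h8] at h7 ⊢
  rcases h6 with h | h
  · rw [h] at h7 ⊢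
    push_cast at h7 ⊢
    rw [one_mul] at h7 ⊢
    rw [abs_of_nonneg h7]
  · rw [h] at h7 ⊢
    push_cast at h7 ⊢
    rw [abs_of_nonpos (by linarith)]
    ring

/-- `w(z) · w(p / q) = min(z, p / q)` near `p / q` -/
theorem sum_ew_mul_near {F : Filter ℝ} {p q : ℕ} (hq : 0 < q) (hpq : q ≤ p) (hc : p.Coprime q)
    (hF : Side F ((p : ℝ) / q)) (hF1 : ∀ᶠ z in F, 1 ≤ z) {n : ℕ}
    (hn : ew ((p : ℝ) / q) n = 0) :
    ∀ᶠ z in F, ∑ i ∈ Finset.range n, ew z i * ew ((p : ℝ) / q) i = min z ((p : ℝ) / q) := by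
  have hq' : (0 : ℝ) < q := by exact_mod_cast hq
  have h1 := eus_fst_of_zero hq hpq hc hn
  have hn' := hn
  rw [ew_def] at hn'
  filter_upwards [sum_ew_mul hF n, eus_snd_near hq hc hF hF1 hn] with z hz hz'
  rw [h1, hn', hz'] at hz
  have e1 : |(q : ℝ) * z - p| * (1 / q) = |z - (p : ℝ) / q| := by
    have : z - (p : ℝ) / q = (q * z - p) * (1 / q) := by field_simp
    rw [this, abs_mul, abs_of_pos (by positivity : (0 : ℝ) < 1 / q)]
  rw [e1] at hz
  have e2 : min z ((p : ℝ) / q) = (z + (p : ℝ) / q) / 2 - |z - (p : ℝ) / q| / 2 := by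
    rcases le_total z ((p : ℝ) / q) with h | h
    · rw [min_eq_left h, abs_of_nonpos (by linarith)]; ring
    · rw [min_eq_right h, abs_of_nonneg (by linarith)]; ring
  rw [e2]
  linarith

/-- `state.1 → 1 / q` -/
theorem tendsto_eus_fst {F : Filter ℝ} {p q : ℕ} (hq : 0 < q) (hpq : q ≤ p) (hc : p.Coprime q)
    (hF : F ≤ 𝓝 ((p : ℝ) / q)) {n : ℕ} (hn : ew ((p : ℝ) / q) n = 0) :
    Tendsto (fun z => (eus z n).1) F (𝓝 (1 / q)) := by
  rw [← eus_fst_of_zero hq hpq hc hn]
  exact ((continuous_eus n).1.tendsto _).mono_left hF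

/-- the first level after the state `(x, s)`: all weights with `(i + 1) s ≤ x` equal `s` -/
theorem eus_level (z : ℝ) (n i : ℕ) (hi : ((i : ℝ) + 1) * (eus z n).2 ≤ (eus z n).1)
    (h0 : 0 ≤ (eus z n).2) :
    eus z (n + i) = ((eus z n).1 - i * (eus z n).2, (eus z n).2) := by
  induction i with
  | zero => simp
  | succ i ih =>
    push_cast at hi
    have h1 := ih (by nlinarith)
    rw [← Nat.add_assoc, eus_succ, h1]
    unfold est
    simp only
    have h2 : (eus z n).2 ≤ (eus z n).1 - i * (eus z n).2 - (eus z n).2 := by nlinarith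
    rw [max_eq_left h2, min_eq_right h2]
    push_cast
    ext
    · simp only; ring
    · rfl

theorem ew_level (z : ℝ) (n i : ℕ) (hi : ((i : ℝ) + 1) * ew z n ≤ (eus z n).1)
    (h0 : 0 ≤ ew z n) : ew z (n + i) = ew z n := by
  rw [ew_def, ew_def] at *
  rw [eus_level z n i hi h0]

/-! ### irrational numbers -/

/-- the integral linear form behind the states (globally) -/
theorem eus_int (z : ℝ) (n : ℕ) :
    ∃ a b c d : ℤ, (a * d - b * c = 1 ∨ a * d - b * c = -1) ∧
      (eus z n).1 = a + b * z ∧ (eus z n).2 = c + d * z := by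
  obtain ⟨a, b, c, d, hdet, hev⟩ := eus_affine (side_right z) n
  exact ⟨a, b, c, d, hdet, eus_affine_at (side_right z) hev⟩

theorem ew_pos_of_irrational {z : ℝ} (hz : 1 ≤ z) (hi : Irrational z) (n : ℕ) : 0 < ew z n := by
  refine lt_of_le_of_ne (ew_nonneg hz n) fun h => ?_
  obtain ⟨a, b, c, d, hdet, -, h2⟩ := eus_int z n
  rw [ew_def, h2] at h
  have hd : d ≠ 0 := by
    rintro rfl
    have hc : (c : ℝ) = 0 := by simpa using h.symm
    have hc' : c = 0 := by exact_mod_cast hc
    rw [hc'] at hdet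
    simp at hdet
  apply hi
  refine ⟨-(c : ℚ) / d, ?_⟩
  have hd' : (d : ℝ) ≠ 0 := by exact_mod_cast hd
  push_cast
  field_simp
  linarith

/-- both numbers of the state tend to zero at irrational numbers -/
theorem tendsto_eus_fst_irrational {z : ℝ} (hz : 1 ≤ z) (hi : Irrational z) :
    Tendsto (fun n => (eus z n).1) atTop (𝓝 0) := by
  -- the first component is antitone and bounded below, it has a limit `ℓ`
  have hbdd : BddBelow (range fun n => (eus z n).1) := ⟨0, by
    rintro _ ⟨n, rfl⟩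
    exact eus_fst_nonneg hz n⟩
  have hlim := tendsto_atTop_ciInf (eus_fst_antitone hz) hbdd
  set ℓ := ⨅ n, (eus z n).1 with hℓ
  have hℓ0 : 0 ≤ ℓ := le_ciInf fun n => eus_fst_nonneg hz n
  rcases hℓ0.eq_or_lt with h0 | h0
  · rw [← h0] at hlim; exact hlim
  exfalso
  -- eventually the second component is smaller than `ℓ / 2`; then the first component decreases by
  -- the second one at every step, which stays constant
  have h1 : ∀ᶠ n in atTop, ew z n < ℓ / 2 := (tendsto_ew hz).eventually (gt_mem_nhds (by linarith))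
  obtain ⟨N, hN⟩ := eventually_atTop.1 h1
  have hge : ∀ n, ℓ ≤ (eus z n).1 := fun n => ciInf_le hbdd n
  have h2 : ∀ k, (eus z (N + k)).2 = (eus z N).2 ∧
      (eus z (N + k)).1 = (eus z N).1 - k * (eus z N).2 := by
    intro k
    induction k with
    | zero => simp
    | succ k ih =>
      have h3 := hN (N + k) (by omega)
      rw [ew_def] at h3
      have h4 := hge (N + k)
      have h5 : (eus z (N + k)).2 ≤ (eus z (N + k)).1 - (eus z (N + k)).2 := by linarith
      rw [← Nat.add_assoc, eus_succ_snd, eus_succ_fst, min_eq_right h5, max_eq_left h5, ih.1, ih.2]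
      push_cast
      exact ⟨rfl, by ring⟩
  have h6 : 0 < (eus z N).2 := ew_pos_of_irrational hz hi N
  obtain ⟨k, hk⟩ := exists_nat_gt ((eus z N).1 / (eus z N).2)
  rw [div_lt_iff₀ h6] at hk
  have h7 := eus_fst_nonneg hz (N + k)
  rw [(h2 k).2] at h7
  linarith

theorem tsum_ew_irrational {z : ℝ} (hz : 1 ≤ z) (hi : Irrational z) : ∑' i, ew z i = z + 1 := by
  refine HasSum.tsum_eq ?_
  rw [(summable_ew hz).hasSum_iff_tendsto_nat]
  have h1 : Tendsto (fun n => z + 1 - (eus z n).1 - ew z n) atTop (𝓝 (z + 1 - 0 - 0)) :=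
    (tendsto_const_nhds.sub (tendsto_eus_fst_irrational hz hi)).sub (tendsto_ew hz)
  rw [sub_zero, sub_zero] at h1
  refine h1.congr fun n => ?_
  have := sum_ew z n
  rw [ew_def]
  linarith

end Stair97
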