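import Mathlib

/-!
One-sided analytic germs: functions which agree with an analytic function on one side of a point.
The class is closed under sums, real multiples, maxima and minima.
-/

namespace Stair97

open Filter Topology Set

/-- `f` agrees on the right of `a` with a function analytic at `a`. -/
def RG (a : ℝ) (f : ℝ → ℝ) : Prop :=
  ∃ g : ℝ → ℝ, AnalyticAt ℝ g a ∧ f =ᶠ[𝓝[>] a] g

/-- `f` agrees on the left of `a` with a function analytic at `a`. -/
def LG (a : ℝ) (f : ℝ → ℝ) : Prop :=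
  ∃ g : ℝ → ℝ, AnalyticAt ℝ g a ∧ f =ᶠ[𝓝[<] a] g

theorem sign_right {a : ℝ} {h : ℝ → ℝ} (hh : AnalyticAt ℝ h a) :
    (∀ᶠ z in 𝓝[>] a, 0 ≤ h z) ∨ (∀ᶠ z in 𝓝[>] a, h z ≤ 0) := by
  rcases hh.eventually_eq_zero_or_eventually_ne_zero with h0 | h1
  · left
    filter_upwards [nhdsWithin_le_nhds h0] with z hz
    exact le_of_eq hz.symm
  · have h2 : ∀ᶠ z in 𝓝[>] a, h z ≠ 0 :=
      (nhdsWithin_mono a (fun x hx => ne_of_gt hx)) h1
    have h3 : ∀ᶠ z in 𝓝[>] a, AnalyticAt ℝ h z :=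
      nhdsWithin_le_nhds hh.eventually_analyticAt
    obtain ⟨u, hu, hsub⟩ := (mem_nhdsGT_iff_exists_Ioo_subset).1 (h2.and h3)
    have hau : a < u := hu
    have hcont : ContinuousOn h (Ioo a u) := fun x hx =>
      ((hsub hx).2.continuousAt).continuousWithinAt
    have hne : ∀ x ∈ Ioo a u, h x ≠ 0 := fun x hx => (hsub hx).1
    by_cases hpos : ∃ x ∈ Ioo a u, 0 < h x
    · obtain ⟨x, hx, hx0⟩ := hpos
      left
      have hmem : Ioo a u ∈ 𝓝[>] a := Ioo_mem_nhdsGT hau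
      filter_upwards [hmem] with z hz
      by_contra hz0
      push Not at hz0
      have := (isPreconnected_Ioo (a := a) (b := u)).intermediate_value hz hx hcont
      obtain ⟨y, hy, hy0⟩ := this (show (0:ℝ) ∈ Icc (h z) (h x) from ⟨hz0.le, hx0.le⟩)
      exact hne y hy hy0
    · right
      push Not at hpos
      have hmem : Ioo a u ∈ 𝓝[>] a := Ioo_mem_nhdsGT hau
      filter_upwards [hmem] with z hz
      exact hpos z hz

theorem sign_left {a : ℝ} {h : ℝ → ℝ} (hh : AnalyticAt ℝ h a) :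
    (∀ᶠ z in 𝓝[<] a, 0 ≤ h z) ∨ (∀ᶠ z in 𝓝[<] a, h z ≤ 0) := by
  rcases hh.eventually_eq_zero_or_eventually_ne_zero with h0 | h1
  · left
    filter_upwards [nhdsWithin_le_nhds h0] with z hz
    exact le_of_eq hz.symm
  · have h2 : ∀ᶠ z in 𝓝[<] a, h z ≠ 0 :=
      (nhdsWithin_mono a (fun x hx => ne_of_lt hx)) h1
    have h3 : ∀ᶠ z in 𝓝[<] a, AnalyticAt ℝ h z :=
      nhdsWithin_le_nhds hh.eventually_analyticAt
    obtain ⟨u, hu, hsub⟩ := (mem_nhdsLT_iff_exists_Ioo_subset).1 (h2.and h3)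
    have hau : u < a := hu
    have hcont : ContinuousOn h (Ioo u a) := fun x hx =>
      ((hsub hx).2.continuousAt).continuousWithinAt
    have hne : ∀ x ∈ Ioo u a, h x ≠ 0 := fun x hx => (hsub hx).1
    by_cases hpos : ∃ x ∈ Ioo u a, 0 < h x
    · obtain ⟨x, hx, hx0⟩ := hpos
      left
      have hmem : Ioo u a ∈ 𝓝[<] a := Ioo_mem_nhdsLT hau
      filter_upwards [hmem] with z hz
      by_contra hz0
      push Not at hz0
      have := (isPreconnected_Ioo (a := u) (b := a)).intermediate_value hz hx hcont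
      obtain ⟨y, hy, hy0⟩ := this (show (0:ℝ) ∈ Icc (h z) (h x) from ⟨hz0.le, hx0.le⟩)
      exact hne y hy hy0
    · right
      push Not at hpos
      have hmem : Ioo u a ∈ 𝓝[<] a := Ioo_mem_nhdsLT hau
      filter_upwards [hmem] with z hz
      exact hpos z hz

theorem RG.of_analytic {a : ℝ} {g : ℝ → ℝ} (hg : AnalyticAt ℝ g a) : RG a g :=
  ⟨g, hg, EventuallyEq.rfl⟩

theorem LG.of_analytic {a : ℝ} {g : ℝ → ℝ} (hg : AnalyticAt ℝ g a) : LG a g :=
  ⟨g, hg, EventuallyEq.rfl⟩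

theorem RG.const (a r : ℝ) : RG a (fun _ => r) := RG.of_analytic analyticAt_const
theorem LG.const (a r : ℝ) : LG a (fun _ => r) := LG.of_analytic analyticAt_const
theorem RG.id (a : ℝ) : RG a (fun z => z) := RG.of_analytic analyticAt_id
theorem LG.id (a : ℝ) : LG a (fun z => z) := LG.of_analytic analyticAt_id

theorem RG.congr {a : ℝ} {f g : ℝ → ℝ} (hf : RG a f) (h : g =ᶠ[𝓝[>] a] f) : RG a g := by
  obtain ⟨k, hk, hfk⟩ := hf
  exact ⟨k, hk, h.trans hfk⟩

theorem LG.congr {a : ℝ} {f g : ℝ → ℝ} (hf : LG a f) (h : g =ᶠ[𝓝[<] a] f) : LG a g := by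
  obtain ⟨k, hk, hfk⟩ := hf
  exact ⟨k, hk, h.trans hfk⟩

theorem RG.add {a : ℝ} {f g : ℝ → ℝ} (hf : RG a f) (hg : RG a g) :
    RG a (fun z => f z + g z) := by
  obtain ⟨k, hk, hfk⟩ := hf
  obtain ⟨l, hl, hgl⟩ := hg
  refine ⟨fun z => k z + l z, hk.add hl, ?_⟩
  filter_upwards [hfk, hgl] with z h1 h2
  rw [h1, h2]

theorem LG.add {a : ℝ} {f g : ℝ → ℝ} (hf : LG a f) (hg : LG a g) :
    LG a (fun z => f z + g z) := by
  obtain ⟨k, hk, hfk⟩ := hf
  obtain ⟨l, hl, hgl⟩ := hg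
  refine ⟨fun z => k z + l z, hk.add hl, ?_⟩
  filter_upwards [hfk, hgl] with z h1 h2
  rw [h1, h2]

theorem RG.sub {a : ℝ} {f g : ℝ → ℝ} (hf : RG a f) (hg : RG a g) :
    RG a (fun z => f z - g z) := by
  obtain ⟨k, hk, hfk⟩ := hf
  obtain ⟨l, hl, hgl⟩ := hg
  refine ⟨fun z => k z - l z, hk.sub hl, ?_⟩
  filter_upwards [hfk, hgl] with z h1 h2
  rw [h1, h2]

theorem LG.sub {a : ℝ} {f g : ℝ → ℝ} (hf : LG a f) (hg : LG a g) :
    LG a (fun z => f z - g z) := by
  obtain ⟨k, hk, hfk⟩ := hf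
  obtain ⟨l, hl, hgl⟩ := hg
  refine ⟨fun z => k z - l z, hk.sub hl, ?_⟩
  filter_upwards [hfk, hgl] with z h1 h2
  rw [h1, h2]

theorem RG.mul {a : ℝ} {f g : ℝ → ℝ} (hf : RG a f) (hg : RG a g) :
    RG a (fun z => f z * g z) := by
  obtain ⟨k, hk, hfk⟩ := hf
  obtain ⟨l, hl, hgl⟩ := hg
  refine ⟨fun z => k z * l z, hk.mul hl, ?_⟩
  filter_upwards [hfk, hgl] with z h1 h2
  rw [h1, h2]

theorem LG.mul {a : ℝ} {f g : ℝ → ℝ} (hf : LG a f) (hg : LG a g) :
    LG a (fun z => f z * g z) := by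
  obtain ⟨k, hk, hfk⟩ := hf
  obtain ⟨l, hl, hgl⟩ := hg
  refine ⟨fun z => k z * l z, hk.mul hl, ?_⟩
  filter_upwards [hfk, hgl] with z h1 h2
  rw [h1, h2]

theorem RG.sum {ι : Type*} {a : ℝ} (s : Finset ι) {f : ι → ℝ → ℝ} (hf : ∀ i ∈ s, RG a (f i)) :
    RG a (fun z => ∑ i ∈ s, f i z) := by
  classical
  induction s using Finset.induction_on with
  | empty => simpa using RG.const a 0
  | insert i s hi ih =>
    have h1 := (hf i (Finset.mem_insert_self i s)).add
      (ih (fun j hj => hf j (Finset.mem_insert_of_mem hj)))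
    refine h1.congr (Eventually.of_forall (fun z => ?_))
    exact Finset.sum_insert hi

theorem LG.sum {ι : Type*} {a : ℝ} (s : Finset ι) {f : ι → ℝ → ℝ} (hf : ∀ i ∈ s, LG a (f i)) :
    LG a (fun z => ∑ i ∈ s, f i z) := by
  classical
  induction s using Finset.induction_on with
  | empty => simpa using LG.const a 0
  | insert i s hi ih =>
    have h1 := (hf i (Finset.mem_insert_self i s)).add
      (ih (fun j hj => hf j (Finset.mem_insert_of_mem hj)))
    refine h1.congr (Eventually.of_forall (fun z => ?_))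
    exact Finset.sum_insert hi

theorem RG.max {a : ℝ} {f g : ℝ → ℝ} (hf : RG a f) (hg : RG a g) :
    RG a (fun z => max (f z) (g z)) := by
  obtain ⟨k, hk, hfk⟩ := hf
  obtain ⟨l, hl, hgl⟩ := hg
  rcases sign_right (hk.sub hl) with h | h
  · refine ⟨k, hk, ?_⟩
    filter_upwards [hfk, hgl, h] with z h1 h2 h3
    rw [h1, h2]
    exact max_eq_left (by simpa using h3)
  · refine ⟨l, hl, ?_⟩
    filter_upwards [hfk, hgl, h] with z h1 h2 h3
    rw [h1, h2]
    exact max_eq_right (by simpa using h3)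

theorem LG.max {a : ℝ} {f g : ℝ → ℝ} (hf : LG a f) (hg : LG a g) :
    LG a (fun z => max (f z) (g z)) := by
  obtain ⟨k, hk, hfk⟩ := hf
  obtain ⟨l, hl, hgl⟩ := hg
  rcases sign_left (hk.sub hl) with h | h
  · refine ⟨k, hk, ?_⟩
    filter_upwards [hfk, hgl, h] with z h1 h2 h3
    rw [h1, h2]
    exact max_eq_left (by simpa using h3)
  · refine ⟨l, hl, ?_⟩
    filter_upwards [hfk, hgl, h] with z h1 h2 h3
    rw [h1, h2]
    exact max_eq_right (by simpa using h3)

theorem RG.min {a : ℝ} {f g : ℝ → ℝ} (hf : RG a f) (hg : RG a g) :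
    RG a (fun z => min (f z) (g z)) := by
  obtain ⟨k, hk, hfk⟩ := hf
  obtain ⟨l, hl, hgl⟩ := hg
  rcases sign_right (hk.sub hl) with h | h
  · refine ⟨l, hl, ?_⟩
    filter_upwards [hfk, hgl, h] with z h1 h2 h3
    rw [h1, h2]
    exact min_eq_right (by simpa using h3)
  · refine ⟨k, hk, ?_⟩
    filter_upwards [hfk, hgl, h] with z h1 h2 h3
    rw [h1, h2]
    exact min_eq_left (by simpa using h3)

theorem LG.min {a : ℝ} {f g : ℝ → ℝ} (hf : LG a f) (hg : LG a g) :
    LG a (fun z => min (f z) (g z)) := by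
  obtain ⟨k, hk, hfk⟩ := hf
  obtain ⟨l, hl, hgl⟩ := hg
  rcases sign_left (hk.sub hl) with h | h
  · refine ⟨l, hl, ?_⟩
    filter_upwards [hfk, hgl, h] with z h1 h2 h3
    rw [h1, h2]
    exact min_eq_right (by simpa using h3)
  · refine ⟨k, hk, ?_⟩
    filter_upwards [hfk, hgl, h] with z h1 h2 h3
    rw [h1, h2]
    exact min_eq_left (by simpa using h3)

theorem RG.sup' {ι : Type*} {a : ℝ} (s : Finset ι) (hs : s.Nonempty) {f : ι → ℝ → ℝ}
    (hf : ∀ i ∈ s, RG a (f i)) : RG a (fun z => s.sup' hs (fun i => f i z)) := by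
  classical
  induction hs using Finset.Nonempty.cons_induction with
  | singleton i =>
    refine (hf i (Finset.mem_singleton_self i)).congr (Eventually.of_forall (fun z => ?_))
    simp
  | cons i s hi hs ih =>
    have h1 := (hf i (Finset.mem_cons_self i s)).max
      (ih (fun j hj => hf j (Finset.mem_cons_of_mem hj)))
    refine h1.congr (Eventually.of_forall (fun z => ?_))
    simp only [Finset.sup'_cons hs]

theorem LG.sup' {ι : Type*} {a : ℝ} (s : Finset ι) (hs : s.Nonempty) {f : ι → ℝ → ℝ}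
    (hf : ∀ i ∈ s, LG a (f i)) : LG a (fun z => s.sup' hs (fun i => f i z)) := by
  classical
  induction hs using Finset.Nonempty.cons_induction with
  | singleton i =>
    refine (hf i (Finset.mem_singleton_self i)).congr (Eventually.of_forall (fun z => ?_))
    simp
  | cons i s hi hs ih =>
    have h1 := (hf i (Finset.mem_cons_self i s)).max
      (ih (fun j hj => hf j (Finset.mem_cons_of_mem hj)))
    refine h1.congr (Eventually.of_forall (fun z => ?_))
    simp only [Finset.sup'_cons hs]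

/-- Smoothness on the right of a point with a right germ. -/
theorem RG.smooth {a : ℝ} {f : ℝ → ℝ} (hf : RG a f) : ∀ᶠ z in 𝓝[>] a, AnalyticAt ℝ f z := by
  obtain ⟨g, hg, hfg⟩ := hf
  have h3 : ∀ᶠ z in 𝓝[>] a, AnalyticAt ℝ g z := nhdsWithin_le_nhds hg.eventually_analyticAt
  obtain ⟨u, hu, hsub⟩ := (mem_nhdsGT_iff_exists_Ioo_subset).1 (hfg.and h3)
  have hau : a < u := hu
  filter_upwards [Ioo_mem_nhdsGT hau] with z hz
  refine (hsub hz).2.congr ?_
  filter_upwards [Ioo_mem_nhds hz.1 hz.2] with y hy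
  exact (hsub hy).1.symm

/-- Smoothness on the left of a point with a left germ. -/
theorem LG.smooth {a : ℝ} {f : ℝ → ℝ} (hf : LG a f) : ∀ᶠ z in 𝓝[<] a, AnalyticAt ℝ f z := by
  obtain ⟨g, hg, hfg⟩ := hf
  have h3 : ∀ᶠ z in 𝓝[<] a, AnalyticAt ℝ g z := nhdsWithin_le_nhds hg.eventually_analyticAt
  obtain ⟨u, hu, hsub⟩ := (mem_nhdsLT_iff_exists_Ioo_subset).1 (hfg.and h3)
  have hau : u < a := hu
  filter_upwards [Ioo_mem_nhdsLT hau] with z hz
  refine (hsub hz).2.congr ?_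
  filter_upwards [Ioo_mem_nhds hz.1 hz.2] with y hy
  exact (hsub hy).1.symm

end Stair97
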