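import Mathlib

/-!
Test classes, the ball packing criterion and the a priori bound for obstructing classes.
-/

namespace Stair97

open Finset

/-- Test class: a degree and two finitely supported multiplicity vectors. -/
structure Cls where
  d : ℕ
  m : ℕ →₀ ℕ
  n : ℕ →₀ ℕ

/-- Nonnegative ECH index. -/
def Tst (A : Cls) : Prop :=
  A.m.sum (fun _ x => x ^ 2 + x) + A.n.sum (fun _ x => x ^ 2 + x) ≤ A.d ^ 2 + 3 * A.d

/-- Area of the class with respect to the domain. -/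
noncomputable def PP (b : ℝ) (β : ℕ → ℝ) (A : Cls) : ℝ :=
  b * A.d - A.m.sum (fun j x => β j * x)

/-- Weighted sum over the ellipsoid part. -/
noncomputable def WW (w : ℕ → ℝ) (n : ℕ →₀ ℕ) : ℝ := n.sum (fun i x => w i * x)

/-- The ball packing criterion. -/
def Fits (b : ℝ) (β : ℕ → ℝ) (w : ℕ → ℝ) (L : ℝ) : Prop :=
  ∀ A : Cls, Tst A → WW w A.n ≤ L * PP b β A

/-- Real form of the a priori bound. -/
theorem real_bound {b S θ : ℝ} (hS : 0 ≤ S) (hV : S < b ^ 2) (hθ : 1 < θ) :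
    ∃ R : ℕ, ∀ d M2 P N2 : ℝ, 0 ≤ d → 0 ≤ M2 → N2 + M2 ≤ d ^ 2 + 3 * d →
      (b * d - P) ^ 2 ≤ S * M2 → θ ^ 2 * P ^ 2 ≤ (b ^ 2 - S) * N2 → d ≤ R := by
  set U : ℝ := b ^ 2 - S with hU
  have hUpos : 0 < U := by rw [hU]; linarith
  have hθ2 : 0 < θ ^ 2 - 1 := by nlinarith
  -- K with 2 S / U ^ 2 ≤ K and 2 b ^ 2 / (U ^ 2 (θ ^ 2 - 1)) ≤ K
  set K : ℝ := 2 * S / U ^ 2 + 2 * b ^ 2 / (U ^ 2 * (θ ^ 2 - 1)) with hK
  obtain ⟨R, hR⟩ := exists_nat_ge (3 * K * U)
  refine ⟨R, fun d M2 P N2 hd hM2 h1 h2 h3 => ?_⟩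
  by_contra hcon
  push Not at hcon
  have hdR : 3 * K * U < d := lt_of_le_of_lt hR hcon
  have hK0 : 0 ≤ K := by positivity
  have hdpos : 0 < d := lt_of_le_of_lt (by positivity) hdR
  -- U Q where Q = M2 - d^2 + P^2 / U
  set Q : ℝ := M2 - d ^ 2 + P ^ 2 / U with hQ
  have hUQ : U * Q = U * M2 - U * d ^ 2 + P ^ 2 := by
    rw [hQ]; field_simp
  have hA : (θ ^ 2 - 1) * P ^ 2 + U * Q ≤ 3 * d * U := by
    rw [hUQ]
    have g1 := mul_le_mul_of_nonneg_left h1 hUpos.le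
    have g2 : (θ ^ 2 - 1) * P ^ 2 = θ ^ 2 * P ^ 2 - P ^ 2 := by ring
    rw [g2]
    linarith
  -- U (d - b P / U)^2 ≤ S Q
  have hB : U * (d - b * P / U) ^ 2 ≤ S * Q := by
    have e1 : U * (d - b * P / U) ^ 2 = U * d ^ 2 - 2 * b * d * P + b ^ 2 * P ^ 2 / U := by
      field_simp
      ring
    have e2 : S * Q = S * M2 - S * d ^ 2 + S * P ^ 2 / U := by
      rw [hQ]; ring
    have e3 : b ^ 2 * P ^ 2 / U = P ^ 2 + S * P ^ 2 / U := by
      have : b ^ 2 = U + S := by rw [hU]; ring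
      rw [this]
      field_simp
    rw [e1, e2, e3]
    have e4 : U * d ^ 2 = b ^ 2 * d ^ 2 - S * d ^ 2 := by rw [hU]; ring
    have e5 : (b * d - P) ^ 2 = b ^ 2 * d ^ 2 - 2 * b * d * P + P ^ 2 := by ring
    rw [e5] at h2
    linarith
  have hQ0 : 0 ≤ S * Q := le_trans (by positivity) hB
  have hC : d ^ 2 ≤ 2 * (d - b * P / U) ^ 2 + 2 * (b * P / U) ^ 2 := by
    nlinarith [sq_nonneg (d - 2 * (b * P / U))]
  have hD : (d - b * P / U) ^ 2 ≤ S * Q / U := by
    rw [le_div_iff₀ hUpos]; linarith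
  have hE : 2 * (b * P / U) ^ 2 = 2 * b ^ 2 / (U ^ 2 * (θ ^ 2 - 1)) * ((θ ^ 2 - 1) * P ^ 2) := by
    field_simp
  have hF : 2 * (S * Q / U) = 2 * S / U ^ 2 * (U * Q) := by
    field_simp
  by_cases hQs : 0 ≤ Q
  · have hUQ0 : 0 ≤ U * Q := by positivity
    have hP0 : 0 ≤ (θ ^ 2 - 1) * P ^ 2 := by positivity
    have a1 : 2 * b ^ 2 / (U ^ 2 * (θ ^ 2 - 1)) * ((θ ^ 2 - 1) * P ^ 2) ≤ K * ((θ ^ 2 - 1) * P ^ 2) := by
      apply mul_le_mul_of_nonneg_right _ hP0
      rw [hK]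
      have : 0 ≤ 2 * S / U ^ 2 := by positivity
      linarith
    have a2 : 2 * S / U ^ 2 * (U * Q) ≤ K * (U * Q) := by
      apply mul_le_mul_of_nonneg_right _ hUQ0
      rw [hK]
      have : 0 ≤ 2 * b ^ 2 / (U ^ 2 * (θ ^ 2 - 1)) := by positivity
      linarith
    have a3 : d ^ 2 ≤ K * (3 * d * U) := by
      calc d ^ 2 ≤ 2 * (d - b * P / U) ^ 2 + 2 * (b * P / U) ^ 2 := hC
        _ ≤ 2 * (S * Q / U) + 2 * (b * P / U) ^ 2 := by linarith
        _ = 2 * S / U ^ 2 * (U * Q) + 2 * b ^ 2 / (U ^ 2 * (θ ^ 2 - 1)) * ((θ ^ 2 - 1) * P ^ 2) := by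
            rw [hE, hF]
        _ ≤ K * (U * Q) + K * ((θ ^ 2 - 1) * P ^ 2) := add_le_add a2 a1
        _ = K * ((θ ^ 2 - 1) * P ^ 2 + U * Q) := by ring
        _ ≤ K * (3 * d * U) := mul_le_mul_of_nonneg_left hA hK0
    have a4 : 3 * K * U * d < d * d := mul_lt_mul_of_pos_right hdR hdpos
    have a5 : K * (3 * d * U) = 3 * K * U * d := by ring
    have a6 : d ^ 2 = d * d := by ring
    rw [a5, a6] at a3
    exact absurd a3 (not_le.2 a4)
  · -- Q < 0 forces S = 0 or contradiction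
    push Not at hQs
    have hS0 : S = 0 := by
      by_contra hne
      have h9 : 0 < S := lt_of_le_of_ne hS (Ne.symm hne)
      have h10 : S * Q < 0 := mul_neg_of_pos_of_neg h9 hQs
      exact absurd hQ0 (not_le.2 h10)
    -- then (b d - P)^2 ≤ 0, so P = b d and M2 ≥ ?
    rw [hS0] at h2
    have h5 : (b * d - P) ^ 2 ≤ 0 := by linarith
    have h6 : b * d - P = 0 := by
      have := sq_nonneg (b * d - P)
      exact pow_eq_zero_iff (two_ne_zero) |>.1 (le_antisymm h5 this)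
    have h7 : P = b * d := by linarith
    have hUb : U = b ^ 2 := by rw [hU, hS0]; ring
    have h8 : Q = M2 := by
      rw [hQ, h7, hUb]
      have hb : b ^ 2 ≠ 0 := by rw [← hUb]; exact hUpos.ne'
      have hb1 : b ≠ 0 := fun h => hb (by rw [h]; ring)
      field_simp
      ring
    rw [h8] at hQs
    exact absurd hM2 (not_le.2 hQs)

theorem Tst.real {A : Cls} (h : Tst A) :
    A.n.sum (fun _ x => (x : ℝ) ^ 2) + A.m.sum (fun _ x => (x : ℝ) ^ 2) ≤
      (A.d : ℝ) ^ 2 + 3 * A.d := by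
  have h1 : ((A.m.sum (fun _ x => x ^ 2 + x) + A.n.sum (fun _ x => x ^ 2 + x) : ℕ) : ℝ) ≤
      ((A.d ^ 2 + 3 * A.d : ℕ) : ℝ) := by exact_mod_cast h
  simp only [Finsupp.sum] at h1 ⊢
  push_cast at h1
  have h2 : ∑ i ∈ A.m.support, ((A.m i : ℝ)) ^ 2 ≤ ∑ i ∈ A.m.support, (((A.m i : ℝ)) ^ 2 + (A.m i : ℝ)) :=
    Finset.sum_le_sum (fun i _ => by linarith [(Nat.cast_nonneg (A.m i) : (0:ℝ) ≤ _)])
  have h3 : ∑ i ∈ A.n.support, ((A.n i : ℝ)) ^ 2 ≤ ∑ i ∈ A.n.support, (((A.n i : ℝ)) ^ 2 + (A.n i : ℝ)) :=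
    Finset.sum_le_sum (fun i _ => by linarith [(Nat.cast_nonneg (A.n i) : (0:ℝ) ≤ _)])
  linarith

/-- Cauchy-Schwarz for a finitely supported vector. -/
theorem cs_fin {w : ℕ → ℝ} {S : ℝ} (hS : ∀ s : Finset ℕ, ∑ i ∈ s, (w i) ^ 2 ≤ S) (n : ℕ →₀ ℕ) :
    (WW w n) ^ 2 ≤ S * n.sum (fun _ x => (x : ℝ) ^ 2) := by
  unfold WW
  simp only [Finsupp.sum]
  calc (∑ i ∈ n.support, w i * (n i : ℝ)) ^ 2
      ≤ (∑ i ∈ n.support, (w i) ^ 2) * (∑ i ∈ n.support, ((n i : ℝ)) ^ 2) :=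
        Finset.sum_mul_sq_le_sq_mul_sq _ _ _
    _ ≤ S * (∑ i ∈ n.support, ((n i : ℝ)) ^ 2) :=
        mul_le_mul_of_nonneg_right (hS _) (Finset.sum_nonneg (fun i _ => sq_nonneg _))

/-- Moving the support of a vector to an initial segment. -/
theorem compress (n : ℕ →₀ ℕ) : ∃ n' : ℕ →₀ ℕ, n'.support = Finset.range n.support.card ∧
    (∀ f : ℕ → ℕ, n'.sum (fun _ x => f x) = n.sum (fun _ x => f x)) ∧
    (∀ w : ℕ → ℝ, Antitone w → WW w n ≤ WW w n') := by
  classical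
  set k := n.support.card with hk
  set e : Fin k ↪o ℕ := n.support.orderEmbOfFin rfl with he
  have hmem : ∀ i, e i ∈ n.support := fun i => Finset.orderEmbOfFin_mem _ _ i
  have hge : ∀ i : Fin k, (i : ℕ) ≤ e i := by
    intro i
    obtain ⟨i, hi⟩ := i
    induction i with
    | zero => exact Nat.zero_le _
    | succ j ih =>
      have h1 := ih (Nat.lt_of_succ_lt hi)
      have h2 : e ⟨j, Nat.lt_of_succ_lt hi⟩ < e ⟨j + 1, hi⟩ := by
        apply e.strictMono
        simp [Fin.lt_def]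
      simp only at h1 h2 ⊢
      omega
  set g : ℕ → ℕ := fun j => if h : j < k then n (e ⟨j, h⟩) else 0 with hg
  have hgsupp : ∀ j, g j ≠ 0 ↔ j ∈ Finset.range k := by
    intro j
    rw [Finset.mem_range]
    constructor
    · intro h
      by_contra hj
      exact h (by simp [hg, hj])
    · intro h
      simp only [hg, h, dif_pos]
      exact Finsupp.mem_support_iff.1 (hmem _)
  refine ⟨⟨Finset.range k, g, fun j => (hgsupp j).symm⟩, rfl, ?_, ?_⟩
  · intro f
    simp only [Finsupp.sum, Finsupp.coe_mk]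
    rw [Finset.sum_range]
    have himg : n.support = Finset.univ.map e.toEmbedding := by
      ext x
      simp only [Finset.mem_map, Finset.mem_univ, true_and]
      constructor
      · intro hx
        have := Finset.range_orderEmbOfFin n.support (rfl : n.support.card = k)
        have hx' : x ∈ Set.range (n.support.orderEmbOfFin (rfl : n.support.card = k)) := by
          rw [this]; exact hx
        obtain ⟨y, hy⟩ := hx'
        exact ⟨y, hy⟩
      · rintro ⟨y, rfl⟩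
        exact hmem y
    conv_rhs => rw [himg, Finset.sum_map]
    apply Finset.sum_congr rfl
    intro i _
    simp [hg]
  · intro w hw
    unfold WW
    simp only [Finsupp.sum, Finsupp.coe_mk]
    rw [Finset.sum_range]
    have himg : n.support = Finset.univ.map e.toEmbedding := by
      ext x
      simp only [Finset.mem_map, Finset.mem_univ, true_and]
      constructor
      · intro hx
        have := Finset.range_orderEmbOfFin n.support (rfl : n.support.card = k)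
        have hx' : x ∈ Set.range (n.support.orderEmbOfFin (rfl : n.support.card = k)) := by
          rw [this]; exact hx
        obtain ⟨y, hy⟩ := hx'
        exact ⟨y, hy⟩
      · rintro ⟨y, rfl⟩
        exact hmem y
    conv_lhs => rw [himg, Finset.sum_map]
    apply Finset.sum_le_sum
    intro i _
    simp only [hg, Fin.is_lt, dif_pos, RelEmbedding.coe_toEmbedding, Fin.eta]
    exact mul_le_mul_of_nonneg_right (hw (hge i)) (Nat.cast_nonneg _)

end Stair97
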