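import Pool.Agent.Stair97.Cls
import Pool.Agent.Stair97.Germ

/-!
Near a point where all obstructing classes have bounded degree the embedding function is a maximum
of finitely many functions.
-/

namespace Stair97

open Finset Filter Topology

/-- The embedding capacity attached to the weight vector `w`. -/
noncomputable def cc (b : ℝ) (β : ℕ → ℝ) (w : ℕ → ℝ) : ℝ :=
  sInf {L | 0 ≤ L ∧ Fits b β w L}

/-- The smallest area of a test class with given degree and ellipsoid part. -/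
noncomputable def xi (b : ℝ) (β : ℕ → ℝ) (a : ℕ × (ℕ →₀ ℕ)) : ℝ :=
  sInf {p | ∃ A : Cls, Tst A ∧ A.d = a.1 ∧ A.n = a.2 ∧ PP b β A = p}

/-- The finite list of pairs (degree, ellipsoid part). -/
noncomputable def Lst (R : ℕ) : Finset (ℕ × (ℕ →₀ ℕ)) :=
  ((range (R + 1)) ×ˢ
    (Finset.finsupp (range (R ^ 2 + 3 * R + 1)) (fun _ => range (R ^ 2 + 3 * R + 1)))).filter
    (fun a => 1 ≤ a.2 0 ∧ a.2.sum (fun _ x => x ^ 2 + x) ≤ a.1 ^ 2 + 3 * a.1)

/-- The functions in the maximum. -/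
noncomputable def ff (b : ℝ) (β : ℕ → ℝ) (v : ℝ) (w : ℕ → ℝ) : Option (ℕ × (ℕ →₀ ℕ)) → ℝ
  | none => v
  | some a => WW w a.2 / xi b β a

/-- The maximum of the level `v` and the bounds of the finite list. -/
noncomputable def c0 (b : ℝ) (β : ℕ → ℝ) (R : ℕ) (v : ℝ) (w : ℕ → ℝ) : ℝ :=
  (Finset.insertNone (Lst R)).sup' ⟨none, by simp⟩ (ff b β v w)

/-- The weight vectors we use. -/
structure IsW (z : ℝ) (w : ℕ → ℝ) : Prop where
  nonneg : ∀ i, 0 ≤ w i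
  anti : Antitone w
  zero : w 0 = 1
  sq : ∀ s : Finset ℕ, ∑ i ∈ s, (w i) ^ 2 ≤ z

theorem WW_nonneg {w : ℕ → ℝ} (hw : ∀ i, 0 ≤ w i) (n : ℕ →₀ ℕ) : 0 ≤ WW w n := by
  unfold WW
  exact Finset.sum_nonneg (fun i _ => mul_nonneg (hw i) (Nat.cast_nonneg _))

theorem WW_zero (w : ℕ → ℝ) : WW w 0 = 0 := by simp [WW]

theorem le_WW {w : ℕ → ℝ} (hw : ∀ i, 0 ≤ w i) (h0 : w 0 = 1) {n : ℕ →₀ ℕ} (hn : 1 ≤ n 0) :
    1 ≤ WW w n := by
  unfold WW
  have hmem : 0 ∈ n.support := Finsupp.mem_support_iff.2 (by omega)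
  calc (1:ℝ) ≤ w 0 * (n 0 : ℝ) := by
        rw [h0, one_mul]; exact_mod_cast hn
    _ ≤ ∑ i ∈ n.support, w i * (n i : ℝ) :=
        Finset.single_le_sum (f := fun i => w i * (n i : ℝ))
          (fun i _ => mul_nonneg (hw i) (Nat.cast_nonneg _)) hmem

/-- The domain is nef. -/
def Nef (b : ℝ) (β : ℕ → ℝ) : Prop := ∀ A : Cls, Tst A → 0 ≤ PP b β A

/-- Uniform lower bound for the area of classes which meet the ellipsoid part. -/
def Gap (b : ℝ) (β : ℕ → ℝ) : Prop :=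
  ∃ η : ℝ, 0 < η ∧ ∀ A : Cls, Tst A → 1 ≤ A.n 0 → η ≤ PP b β A

theorem pos_of_fits {b : ℝ} {β : ℕ → ℝ} {z : ℝ} {w : ℕ → ℝ} (hb : 0 < b) (hw : IsW z w) {L : ℝ}
    (hL : Fits b β w L) : 0 < L := by
  have h := hL ⟨1, 0, Finsupp.single 0 1⟩ (by unfold Tst; simp)
  have h1 : (1:ℝ) ≤ WW w (Finsupp.single 0 1) := le_WW hw.nonneg hw.zero (by simp)
  have h2 : PP b β ⟨1, 0, Finsupp.single 0 1⟩ = b := by simp [PP]
  rw [h2] at h
  by_contra hcon
  push Not at hcon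
  have : L * b ≤ 0 := mul_nonpos_of_nonpos_of_nonneg hcon hb.le
  linarith

theorem nef_of_fits {b : ℝ} {β : ℕ → ℝ} {z : ℝ} {w : ℕ → ℝ} (hb : 0 < b) (hw : IsW z w) {L : ℝ}
    (hL : Fits b β w L) : Nef b β := by
  intro A hA
  have h0 := pos_of_fits hb hw hL
  have h1 := hL A hA
  have h2 := WW_nonneg hw.nonneg A.n
  by_contra hcon
  push Not at hcon
  have : L * PP b β A < 0 := mul_neg_of_pos_of_neg h0 hcon
  linarith

theorem gap_of_fits {b : ℝ} {β : ℕ → ℝ} {z : ℝ} {w : ℕ → ℝ} (hb : 0 < b) (hw : IsW z w) {L : ℝ}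
    (hL : Fits b β w L) : Gap b β := by
  have h0 := pos_of_fits hb hw hL
  refine ⟨1 / L, by positivity, fun A hA hn => ?_⟩
  have h1 := hL A hA
  have h2 := le_WW hw.nonneg hw.zero hn
  rw [div_le_iff₀ h0]
  linarith [mul_comm L (PP b β A)]

theorem xi_le {b : ℝ} {β : ℕ → ℝ} (hnef : Nef b β) {A : Cls} (hA : Tst A) :
    xi b β (A.d, A.n) ≤ PP b β A := by
  apply csInf_le
  · exact ⟨0, fun p ⟨B, hB, _, _, hp⟩ => hp ▸ hnef B hB⟩
  · exact ⟨A, hA, rfl, rfl, rfl⟩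

theorem le_xi {b : ℝ} {β : ℕ → ℝ} {a : ℕ × (ℕ →₀ ℕ)}
    (ha : a.2.sum (fun _ x => x ^ 2 + x) ≤ a.1 ^ 2 + 3 * a.1) {r : ℝ}
    (hr : ∀ A : Cls, Tst A → A.d = a.1 → A.n = a.2 → r ≤ PP b β A) : r ≤ xi b β a := by
  apply le_csInf
  · exact ⟨_, ⟨a.1, 0, a.2⟩, by unfold Tst; simpa using ha, rfl, rfl, rfl⟩
  · rintro p ⟨A, hA, h1, h2, rfl⟩
    exact hr A hA h1 h2

theorem mem_Lst {R : ℕ} {a : ℕ × (ℕ →₀ ℕ)} (ha : a ∈ Lst R) :
    1 ≤ a.2 0 ∧ a.2.sum (fun _ x => x ^ 2 + x) ≤ a.1 ^ 2 + 3 * a.1 :=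
  (Finset.mem_filter.1 ha).2

theorem xi_pos {b : ℝ} {β : ℕ → ℝ} (hg : Gap b β) {R : ℕ} {a : ℕ × (ℕ →₀ ℕ)} (ha : a ∈ Lst R) :
    0 < xi b β a := by
  obtain ⟨η, hη, h⟩ := hg
  obtain ⟨h1, h2⟩ := mem_Lst ha
  exact lt_of_lt_of_le hη (le_xi h2 (fun A hA _ hn => h A hA (by rw [hn]; exact h1)))

theorem le_c0_none {b : ℝ} {β : ℕ → ℝ} {R : ℕ} {v : ℝ} {w : ℕ → ℝ} : v ≤ c0 b β R v w :=
  Finset.le_sup' (ff b β v w) (b := none) (by simp)

theorem le_c0_some {b : ℝ} {β : ℕ → ℝ} {R : ℕ} {v : ℝ} {w : ℕ → ℝ} {a : ℕ × (ℕ →₀ ℕ)}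
    (ha : a ∈ Lst R) : WW w a.2 / xi b β a ≤ c0 b β R v w :=
  Finset.le_sup' (ff b β v w) (b := some a) (by simpa using ha)

theorem exists_list {R : ℕ} {A : Cls} (hA : Tst A) (hd : A.d ≤ R) (hn : A.n ≠ 0) :
    ∃ A' : Cls, Tst A' ∧ A'.d = A.d ∧ A'.m = A.m ∧ (A'.d, A'.n) ∈ Lst R ∧
      ∀ w : ℕ → ℝ, Antitone w → WW w A.n ≤ WW w A'.n := by
  obtain ⟨n', h1, h2, h3⟩ := compress A.n
  have hcard : 1 ≤ A.n.support.card := by
    rw [Nat.succ_le_iff, Finset.card_pos]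
    exact Finsupp.support_nonempty_iff.2 hn
  have hT : Tst ⟨A.d, A.m, n'⟩ := by
    unfold Tst
    simp only
    rw [h2 (fun x => x ^ 2 + x)]
    exact hA
  have hsum : n'.sum (fun _ x => x ^ 2 + x) ≤ A.d ^ 2 + 3 * A.d := by
    have := hT
    unfold Tst at this
    simp only at this
    omega
  have hR2 : A.d ^ 2 + 3 * A.d ≤ R ^ 2 + 3 * R := by nlinarith
  refine ⟨⟨A.d, A.m, n'⟩, hT, rfl, rfl, ?_, h3⟩
  unfold Lst
  rw [Finset.mem_filter]
  refine ⟨?_, ?_, hsum⟩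
  · rw [Finset.mem_product]
    refine ⟨Finset.mem_range.2 (by simp only; omega), ?_⟩
    rw [Finset.mem_finsupp_iff]
    have hval : ∀ i ∈ n'.support, n' i ^ 2 + n' i ≤ R ^ 2 + 3 * R := by
      intro i hi
      refine le_trans (Finset.single_le_sum (f := fun i => n' i ^ 2 + n' i)
        (fun _ _ => Nat.zero_le _) hi) (le_trans hsum hR2)
    constructor
    · intro i hi
      simp only at hi ⊢
      rw [h1, Finset.mem_range] at hi
      rw [Finset.mem_range]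
      have hc : n'.support.card ≤ n'.sum (fun _ x => x ^ 2 + x) := by
        rw [Finsupp.sum, Finset.card_eq_sum_ones]
        apply Finset.sum_le_sum
        intro j hj
        have : n' j ≠ 0 := Finsupp.mem_support_iff.1 hj
        have : 1 ≤ n' j := Nat.one_le_iff_ne_zero.2 this
        nlinarith
      rw [h1, Finset.card_range] at hc
      omega
    · intro i hi
      simp only
      rw [Finset.mem_range]
      by_cases hz : n' i = 0
      · rw [hz]; omega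
      · have := hval i (Finsupp.mem_support_iff.2 hz)
        have h5 : 0 ≤ n' i ^ 2 := Nat.zero_le _
        omega
  · simp only
    have : 0 ∈ n'.support := by rw [h1, Finset.mem_range]; omega
    exact Nat.one_le_iff_ne_zero.2 (Finsupp.mem_support_iff.1 this)

/-- Sufficient level. -/
theorem fits_c0 {b : ℝ} {β : ℕ → ℝ} {z : ℝ} {w : ℕ → ℝ} (hw : IsW z w) (hnef : Nef b β)
    (hg : Gap b β) {R : ℕ} {v : ℝ} (hv : 0 ≤ v)
    (hob : ∀ A : Cls, Tst A → v * PP b β A < WW w A.n → A.d ≤ R) :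
    Fits b β w (c0 b β R v w) := by
  intro A hA
  have hP := hnef A hA
  by_cases hc : v * PP b β A < WW w A.n
  · have hd := hob A hA hc
    have hn : A.n ≠ 0 := by
      intro h0
      rw [h0, WW_zero] at hc
      have : 0 ≤ v * PP b β A := mul_nonneg hv hP
      linarith
    obtain ⟨A', hA', hd', hm', hlist, hWW⟩ := exists_list hA hd hn
    have hPP : PP b β A' = PP b β A := by
      unfold PP
      rw [hd', hm']
    have hx := xi_le hnef hA'
    have hx0 := xi_pos hg hlist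
    have h1 := le_c0_some (b := b) (β := β) (v := v) (w := w) hlist
    simp only at h1
    rw [div_le_iff₀ hx0] at h1
    have hc0 : 0 ≤ c0 b β R v w := le_trans hv le_c0_none
    calc WW w A.n ≤ WW w A'.n := hWW w hw.anti
      _ ≤ c0 b β R v w * xi b β (A'.d, A'.n) := h1
      _ ≤ c0 b β R v w * PP b β A' := mul_le_mul_of_nonneg_left hx hc0
      _ = c0 b β R v w * PP b β A := by rw [hPP]
  · push Not at hc
    exact le_trans hc (mul_le_mul_of_nonneg_right le_c0_none hP)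

/-- The embedding function is a maximum of finitely many functions. -/
theorem cc_eq {b : ℝ} {β : ℕ → ℝ} {z : ℝ} {w : ℕ → ℝ} (hb : 0 < b) (hw : IsW z w)
    (hnef : Nef b β) (hg : Gap b β) {R : ℕ} {v : ℝ} (hv : 0 ≤ v)
    (hob : ∀ A : Cls, Tst A → v * PP b β A < WW w A.n → A.d ≤ R) (hle : v ≤ cc b β w) :
    cc b β w = c0 b β R v w := by
  have hfit := fits_c0 hw hnef hg hv hob
  have hc0 : 0 ≤ c0 b β R v w := le_trans hv le_c0_none
  apply le_antisymm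
  · exact csInf_le ⟨0, fun L hL => hL.1⟩ ⟨hc0, hfit⟩
  · apply Finset.sup'_le
    intro o ho
    match o with
    | none => exact hle
    | some a =>
      have ha : a ∈ Lst R := by simpa using ho
      have hx0 := xi_pos hg ha
      obtain ⟨ha1, ha2⟩ := mem_Lst ha
      show WW w a.2 / xi b β a ≤ cc b β w
      refine le_csInf ⟨c0 b β R v w, hc0, hfit⟩ ?_
      rintro L ⟨hL0, hL⟩
      have hLpos := pos_of_fits hb hw hL
      have h1 : WW w a.2 / L ≤ xi b β a := by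
        apply le_xi ha2
        intro A hA _ hn
        rw [div_le_iff₀ hLpos, ← hn]
        linarith [hL A hA, mul_comm L (PP b β A)]
      rw [div_le_iff₀ hx0]
      rw [div_le_iff₀ hLpos] at h1
      linarith [mul_comm L (xi b β a)]

theorem WW_RG {a : ℝ} {w : ℝ → ℕ → ℝ} (hw : ∀ i, RG a (fun z => w z i)) (n : ℕ →₀ ℕ) :
    RG a (fun z => WW (w z) n) := by
  unfold WW
  simp only [Finsupp.sum]
  exact RG.sum _ (fun i _ => (hw i).mul (RG.const a _))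

theorem WW_LG {a : ℝ} {w : ℝ → ℕ → ℝ} (hw : ∀ i, LG a (fun z => w z i)) (n : ℕ →₀ ℕ) :
    LG a (fun z => WW (w z) n) := by
  unfold WW
  simp only [Finsupp.sum]
  exact LG.sum _ (fun i _ => (hw i).mul (LG.const a _))

theorem c0_RG {b : ℝ} {β : ℕ → ℝ} {R : ℕ} {a : ℝ} {v : ℝ → ℝ} {w : ℝ → ℕ → ℝ}
    (hv : RG a v) (hw : ∀ i, RG a (fun z => w z i)) :
    RG a (fun z => c0 b β R (v z) (w z)) := by
  unfold c0
  apply RG.sup'
  intro o _
  match o with
  | none => exact hv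
  | some x =>
    have := (WW_RG hw x.2).mul (RG.const a (1 / xi b β x))
    refine this.congr (Eventually.of_forall (fun z => ?_))
    show WW (w z) x.2 / xi b β x = WW (w z) x.2 * (1 / xi b β x)
    ring

theorem c0_LG {b : ℝ} {β : ℕ → ℝ} {R : ℕ} {a : ℝ} {v : ℝ → ℝ} {w : ℝ → ℕ → ℝ}
    (hv : LG a v) (hw : ∀ i, LG a (fun z => w z i)) :
    LG a (fun z => c0 b β R (v z) (w z)) := by
  unfold c0
  apply LG.sup'
  intro o _
  match o with
  | none => exact hv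
  | some x =>
    have := (WW_LG hw x.2).mul (LG.const a (1 / xi b β x))
    refine this.congr (Eventually.of_forall (fun z => ?_))
    show WW (w z) x.2 / xi b β x = WW (w z) x.2 * (1 / xi b β x)
    ring

/-- Bounded degree of obstructing classes at level `θ V(z)` for `θ > 1`. -/
theorem deg_bound {b : ℝ} {β : ℕ → ℝ} (hβ : Summable (fun j => (β j) ^ 2))
    (hV : ∑' j, (β j) ^ 2 < b ^ 2) (hnef : Nef b β) {θ : ℝ} (hθ : 1 < θ) :
    ∃ R : ℕ, ∀ z : ℝ, 0 < z → ∀ w : ℕ → ℝ, IsW z w → ∀ A : Cls, Tst A →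
      θ * Real.sqrt (z / (b ^ 2 - ∑' j, (β j) ^ 2)) * PP b β A < WW w A.n → A.d ≤ R := by
  set S := ∑' j, (β j) ^ 2 with hSdef
  have hS0 : 0 ≤ S := tsum_nonneg (fun j => sq_nonneg _)
  obtain ⟨R, hR⟩ := real_bound (b := b) (S := S) (θ := θ) hS0 hV hθ
  refine ⟨R, fun z hz w hw A hA hob => ?_⟩
  have hU : 0 < b ^ 2 - S := by linarith
  have hP := hnef A hA
  have h1 : (b * A.d - PP b β A) ^ 2 ≤ S * A.m.sum (fun _ x => (x : ℝ) ^ 2) := by
    have h2 : b * A.d - PP b β A = WW β A.m := by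
      unfold PP WW; ring
    rw [h2]
    exact cs_fin (fun s => hβ.sum_le_tsum s (fun j _ => sq_nonneg _)) A.m
  have h3 : (WW w A.n) ^ 2 ≤ z * A.n.sum (fun _ x => (x : ℝ) ^ 2) := cs_fin hw.sq A.n
  have h4 : θ ^ 2 * PP b β A ^ 2 ≤ (b ^ 2 - S) * A.n.sum (fun _ x => (x : ℝ) ^ 2) := by
    have h5 : 0 ≤ θ * Real.sqrt (z / (b ^ 2 - S)) * PP b β A := by positivity
    have h6 : (θ * Real.sqrt (z / (b ^ 2 - S)) * PP b β A) ^ 2 ≤ (WW w A.n) ^ 2 :=
      pow_le_pow_left₀ h5 hob.le 2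
    have h7 : (θ * Real.sqrt (z / (b ^ 2 - S)) * PP b β A) ^ 2 =
        z / (b ^ 2 - S) * (θ ^ 2 * PP b β A ^ 2) := by
      rw [mul_pow, mul_pow, Real.sq_sqrt (by positivity)]
      ring
    rw [h7] at h6
    have h8 : z / (b ^ 2 - S) * (θ ^ 2 * PP b β A ^ 2) ≤ z * A.n.sum (fun _ x => (x : ℝ) ^ 2) :=
      le_trans h6 h3
    have h9 : z * (θ ^ 2 * PP b β A ^ 2) ≤ z * ((b ^ 2 - S) * A.n.sum (fun _ x => (x : ℝ) ^ 2)) := by
      have e1 : z / (b ^ 2 - S) * (θ ^ 2 * PP b β A ^ 2) * (b ^ 2 - S) =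
          z * (θ ^ 2 * PP b β A ^ 2) := by
        field_simp
      have := mul_le_mul_of_nonneg_right h8 hU.le
      rw [e1] at this
      linarith
    exact le_of_mul_le_mul_left h9 hz
  have h10 := hR (A.d : ℝ) (A.m.sum (fun _ x => (x : ℝ) ^ 2)) (PP b β A)
    (A.n.sum (fun _ x => (x : ℝ) ^ 2)) (Nat.cast_nonneg _)
    (Finset.sum_nonneg (fun i _ => sq_nonneg _)) hA.real h1 h4
  exact_mod_cast h10

end Stair97
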