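import Pool.Agent.Stair97.Volume

/-!
The master inequality for classes which violate the volume level.
-/

namespace Stair97

open Finset Filter Topology

theorem WW_eq_range {w : ℕ → ℝ} {n : ℕ →₀ ℕ} {K : ℕ} (hK : n.support ⊆ range K) :
    WW w n = ∑ i ∈ range K, w i * (n i : ℝ) := by
  unfold WW
  exact Finsupp.sum_of_support_subset n hK _ (by simp)

theorem sum_eq_range {n : ℕ →₀ ℕ} {K : ℕ} (hK : n.support ⊆ range K) (g : ℕ → ℝ) (hg : g 0 = 0) :
    n.sum (fun _ x => g x) = ∑ i ∈ range K, g (n i) :=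
  Finsupp.sum_of_support_subset n hK _ (by simp [hg])

theorem exists_K (n : ℕ →₀ ℕ) (K0 : ℕ) : ∃ K, K0 ≤ K ∧ n.support ⊆ range K := by
  refine ⟨max K0 (n.support.sup id + 1), le_max_left _ _, fun i hi => ?_⟩
  rw [Finset.mem_range]
  have : i ≤ n.support.sup id := Finset.le_sup (f := id) hi
  have h2 : n.support.sup id + 1 ≤ max K0 (n.support.sup id + 1) := le_max_right _ _
  omega

theorem Tst.real' {A : Cls} (h : Tst A) {K J : ℕ} (hK : A.n.support ⊆ range K)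
    (hJ : A.m.support ⊆ range J) :
    (∑ j ∈ range J, ((A.m j : ℝ) ^ 2 + (A.m j : ℝ))) +
      (∑ i ∈ range K, ((A.n i : ℝ) ^ 2 + (A.n i : ℝ))) ≤ (A.d : ℝ) ^ 2 + 3 * A.d := by
  have h1 : ((A.m.sum (fun _ x => x ^ 2 + x) + A.n.sum (fun _ x => x ^ 2 + x) : ℕ) : ℝ) ≤
      ((A.d ^ 2 + 3 * A.d : ℕ) : ℝ) := by exact_mod_cast h
  rw [Finsupp.sum_of_support_subset A.m hJ _ (by simp),
    Finsupp.sum_of_support_subset A.n hK _ (by simp)] at h1
  push_cast at h1
  exact h1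

/-- The master inequality. -/
theorem master {b : ℝ} {β : ℕ → ℝ}
    (hβs : Summable (fun j => (β j) ^ 2)) (hV : ∑' j, (β j) ^ 2 < b ^ 2) (I J : ℕ) :
    ∃ C : ℝ, 0 ≤ C ∧ ∀ z : ℝ, 0 < z → ∀ w : ℕ → ℝ, IsW z w → ∀ A : Cls, Tst A →
      0 ≤ PP b β A → ∀ V lam : ℝ, 0 < V → V ^ 2 * (b ^ 2 - ∑' j, (β j) ^ 2) = z →
      PP b β A = lam * V * (b ^ 2 - ∑' j, (β j) ^ 2) →
      V * PP b β A ≤ WW w A.n →
      ∃ Q r : ℝ, 0 ≤ Q ∧ (A.d : ℝ) = lam * V * b + r ∧
        (b ^ 2 - ∑' j, (β j) ^ 2) * r ^ 2 ≤ (∑' j, (β j) ^ 2) * Q ∧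
        ∀ K, I ≤ K → Q / 2 + (∑ i ∈ range I, ((A.n i : ℝ) - lam * w i) ^ 2) / 2 +
          ∑ i ∈ Ico I K, (((A.n i : ℝ) - lam * w i) ^ 2 + (A.n i : ℝ)) ≤
          lam * (V * (3 * b - ∑ j ∈ range J, β j) - ∑ i ∈ range I, w i) + C := by
  set S := ∑' j, (β j) ^ 2 with hS
  have hS0 : 0 ≤ S := tsum_nonneg (fun j => sq_nonneg _)
  set U := b ^ 2 - S with hU
  have hUp : 0 < U := by rw [hU]; linarith
  set D : ℝ := 2 * S / U + 1 with hD
  have hDp : 0 < D := by positivity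
  refine ⟨(9 + J) * D / 2 + I / 2, by positivity, ?_⟩
  intro z hz w hw A hA hP V lam hVp hVz hlam hob
  have hlam0 : 0 ≤ lam := by
    by_contra hneg
    push Not at hneg
    have h1 : 0 < V * U := mul_pos hVp hUp
    have h2 : lam * (V * U) < 0 := mul_neg_of_neg_of_pos hneg h1
    have h3 : lam * V * U = lam * (V * U) := by ring
    rw [h3] at hlam
    linarith
  obtain ⟨J', hJJ', hJs⟩ := exists_K A.m J
  -- real quantities
  set d : ℝ := (A.d : ℝ) with hd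
  set r : ℝ := d - lam * V * b with hr
  have hβm : ∑ j ∈ range J', β j * (A.m j : ℝ) = b * d - PP b β A := by
    have h := WW_eq_range (w := β) hJs
    rw [← h]
    unfold PP WW
    ring
  have hSJ : ∑ j ∈ range J', (β j) ^ 2 ≤ S := hβs.sum_le_tsum _ (fun j _ => sq_nonneg _)
  set M2 : ℝ := ∑ j ∈ range J', (A.m j : ℝ) ^ 2 with hM2
  set Q : ℝ := M2 - d ^ 2 + lam ^ 2 * z with hQ
  -- sum of squares of the rho_j
  have hrho : ∑ j ∈ range J', ((A.m j : ℝ) - lam * V * β j) ^ 2 ≤ Q + r ^ 2 := by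
    have e1 : ∑ j ∈ range J', ((A.m j : ℝ) - lam * V * β j) ^ 2 =
        M2 - 2 * (lam * V) * (∑ j ∈ range J', β j * (A.m j : ℝ)) +
          (lam * V) ^ 2 * ∑ j ∈ range J', (β j) ^ 2 := by
      rw [hM2, Finset.mul_sum, Finset.mul_sum, ← Finset.sum_sub_distrib, ← Finset.sum_add_distrib]
      apply Finset.sum_congr rfl
      intro j _
      ring
    rw [e1, hβm, hlam]
    have e2 : (lam * V) ^ 2 * ∑ j ∈ range J', (β j) ^ 2 ≤ (lam * V) ^ 2 * S :=
      mul_le_mul_of_nonneg_left hSJ (sq_nonneg _)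
    have e3 : Q + r ^ 2 = M2 - 2 * (lam * V) * (b * d - lam * V * U) + (lam * V) ^ 2 * S := by
      rw [hQ, hr, ← hVz, hU]
      ring
    rw [e3]
    linarith
  -- U r ^ 2 ≤ S Q
  have hUr : U * r ^ 2 ≤ S * Q := by
    have h1 : (b * d - PP b β A) ^ 2 ≤ S * M2 := by
      rw [← hβm]
      calc (∑ j ∈ range J', β j * (A.m j : ℝ)) ^ 2
          ≤ (∑ j ∈ range J', (β j) ^ 2) * (∑ j ∈ range J', ((A.m j : ℝ)) ^ 2) :=
            Finset.sum_mul_sq_le_sq_mul_sq _ _ _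
        _ ≤ S * M2 := mul_le_mul_of_nonneg_right hSJ (Finset.sum_nonneg (fun i _ => sq_nonneg _))
    rw [hlam] at h1
    have e1 : U * r ^ 2 - S * Q = (b * d - lam * V * U) ^ 2 - S * M2 := by
      rw [hQ, hr, ← hVz, hU]
      ring
    linarith
  have hQ0 : 0 ≤ Q := by
    by_contra hneg
    push Not at hneg
    have h1 : 0 ≤ U * r ^ 2 := by positivity
    have h2 : S * Q ≤ 0 := mul_nonpos_of_nonneg_of_nonpos hS0 hneg.le
    have h3 : U * r ^ 2 = 0 := by linarith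
    have h4 : r ^ 2 = 0 := by
      rcases mul_eq_zero.1 h3 with h | h
      · exact absurd h hUp.ne'
      · exact h
    have h5 : 0 ≤ ∑ j ∈ range J', ((A.m j : ℝ) - lam * V * β j) ^ 2 :=
      Finset.sum_nonneg (fun i _ => sq_nonneg _)
    linarith
  refine ⟨Q, r, hQ0, by rw [hr]; ring, hUr, ?_⟩
  intro K hIK
  obtain ⟨K', hKK', hKs⟩ := exists_K A.n K
  have hidx := hA.real' hKs hJs
  rw [Finset.sum_add_distrib, Finset.sum_add_distrib] at hidx
  set N2 : ℝ := ∑ i ∈ range K', (A.n i : ℝ) ^ 2 with hN2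
  set N1 : ℝ := ∑ i ∈ range K', (A.n i : ℝ) with hN1
  set M1 : ℝ := ∑ j ∈ range J', (A.m j : ℝ) with hM1
  have hWK : WW w A.n = ∑ i ∈ range K', w i * (A.n i : ℝ) := WW_eq_range hKs
  have hwz : ∑ i ∈ range K', (w i) ^ 2 ≤ z := hw.sq _
  have hnu : ∑ i ∈ range K', ((A.n i : ℝ) - lam * w i) ^ 2 ≤ N2 - lam ^ 2 * z := by
    have e1 : ∑ i ∈ range K', ((A.n i : ℝ) - lam * w i) ^ 2 =
        N2 - 2 * lam * (∑ i ∈ range K', w i * (A.n i : ℝ)) +
          lam ^ 2 * ∑ i ∈ range K', (w i) ^ 2 := by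
      rw [hN2, Finset.mul_sum, Finset.mul_sum, ← Finset.sum_sub_distrib, ← Finset.sum_add_distrib]
      apply Finset.sum_congr rfl
      intro j _
      ring
    rw [e1, ← hWK]
    have e2 : lam ^ 2 * ∑ i ∈ range K', (w i) ^ 2 ≤ lam ^ 2 * z :=
      mul_le_mul_of_nonneg_left hwz (sq_nonneg _)
    have e3 : lam * z ≤ WW w A.n := by
      have : V * PP b β A = lam * z := by rw [hlam, ← hVz]; ring
      linarith
    have e4 := mul_le_mul_of_nonneg_left e3 hlam0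
    linarith [show lam * (lam * z) = lam ^ 2 * z from by ring]
  -- combine: Q + sum nu^2 + N1 ≤ 3 d - M1
  have hcomb : Q + (∑ i ∈ range K', ((A.n i : ℝ) - lam * w i) ^ 2) + N1 ≤ 3 * d - M1 := by
    rw [hQ]
    linarith
  -- lower bound of M1
  have hM1low : lam * V * (∑ j ∈ range J, β j) + ∑ j ∈ range J, ((A.m j : ℝ) - lam * V * β j) ≤ M1 := by
    have e1 : lam * V * (∑ j ∈ range J, β j) + ∑ j ∈ range J, ((A.m j : ℝ) - lam * V * β j) =
        ∑ j ∈ range J, (A.m j : ℝ) := by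
      rw [Finset.mul_sum, ← Finset.sum_add_distrib]
      apply Finset.sum_congr rfl
      intro j _
      ring
    rw [e1]
    exact Finset.sum_le_sum_of_subset_of_nonneg (Finset.range_mono hJJ')
      (fun _ _ _ => Nat.cast_nonneg _)
  have hrhoJ : ∑ j ∈ range J, ((A.m j : ℝ) - lam * V * β j) ^ 2 ≤ Q + r ^ 2 :=
    le_trans (Finset.sum_le_sum_of_subset_of_nonneg (Finset.range_mono hJJ')
      (fun _ _ _ => sq_nonneg _)) hrho
  -- Young with a = 1 / (2 D)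
  have hyoung : ∀ t : ℝ, -t ≤ t ^ 2 / (2 * D) + D / 2 := by
    intro t
    have h1 : t ^ 2 / (2 * D) + D / 2 + t = (t + D) ^ 2 / (2 * D) := by
      field_simp
      ring
    have h2 : 0 ≤ (t + D) ^ 2 / (2 * D) := by positivity
    linarith
  have hy1 : 3 * r ≤ r ^ 2 / (2 * D) + 9 * D / 2 := by
    have h1 : r ^ 2 / (2 * D) + 9 * D / 2 - 3 * r = (r - 3 * D) ^ 2 / (2 * D) := by
      field_simp
      ring
    have h2 : 0 ≤ (r - 3 * D) ^ 2 / (2 * D) := by positivity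
    linarith
  have hy2 : -∑ j ∈ range J, ((A.m j : ℝ) - lam * V * β j) ≤ (Q + r ^ 2) / (2 * D) + J * D / 2 := by
    rw [← Finset.sum_neg_distrib]
    calc ∑ j ∈ range J, -((A.m j : ℝ) - lam * V * β j)
        ≤ ∑ j ∈ range J, (((A.m j : ℝ) - lam * V * β j) ^ 2 / (2 * D) + D / 2) :=
          Finset.sum_le_sum (fun j _ => hyoung _)
      _ = (∑ j ∈ range J, ((A.m j : ℝ) - lam * V * β j) ^ 2) / (2 * D) + J * D / 2 := by
          rw [Finset.sum_add_distrib, Finset.sum_div, Finset.sum_const, Finset.card_range]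
          simp only [nsmul_eq_mul]
          ring
      _ ≤ (Q + r ^ 2) / (2 * D) + J * D / 2 := by
          have := div_le_div_of_nonneg_right hrhoJ (show (0:ℝ) ≤ 2 * D by positivity)
          linarith
  have hy3 : (Q + 2 * r ^ 2) / (2 * D) ≤ Q / 2 := by
    have h1 : r ^ 2 ≤ S * Q / U := by
      rw [le_div_iff₀ hUp]
      linarith [mul_comm (r ^ 2) U]
    have h2 : Q + 2 * r ^ 2 ≤ Q * D := by
      have : Q * D = Q + 2 * (S * Q / U) := by
        rw [hD]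
        field_simp
        ring
      rw [this]
      linarith
    rw [div_le_div_iff₀ (by positivity) (by norm_num)]
    have h5 : Q * (2 * D) = 2 * (Q * D) := by ring
    rw [h5]
    linarith
  -- n part
  have hsplit : ∀ g : ℕ → ℝ, ∑ i ∈ range K', g i = ∑ i ∈ range I, g i + ∑ i ∈ Ico I K', g i := by
    intro g
    rw [Finset.range_eq_Ico, Finset.range_eq_Ico]
    exact (Finset.sum_Ico_consecutive g (Nat.zero_le I) (le_trans hIK hKK')).symm
  have hN1split : N1 = ∑ i ∈ range I, (A.n i : ℝ) + ∑ i ∈ Ico I K', (A.n i : ℝ) := hsplit _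
  have hnusplit := hsplit (fun i => ((A.n i : ℝ) - lam * w i) ^ 2)
  have hy4 : -∑ i ∈ range I, (A.n i : ℝ) ≤
      -(lam * ∑ i ∈ range I, w i) + (∑ i ∈ range I, ((A.n i : ℝ) - lam * w i) ^ 2) / 2 + I / 2 := by
    have h1 : ∀ i ∈ range I, -(A.n i : ℝ) ≤ -(lam * w i) + (((A.n i : ℝ) - lam * w i) ^ 2) / 2 + 1 / 2 := by
      intro i _
      have h3 := sq_nonneg ((A.n i : ℝ) - lam * w i + 1)
      have h4 : ((A.n i : ℝ) - lam * w i + 1) ^ 2 =
          ((A.n i : ℝ) - lam * w i) ^ 2 + 2 * ((A.n i : ℝ) - lam * w i) + 1 := by ring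
      rw [h4] at h3
      linarith
    have h2 := Finset.sum_le_sum h1
    rw [Finset.sum_neg_distrib, Finset.sum_add_distrib, Finset.sum_add_distrib,
      Finset.sum_neg_distrib, ← Finset.mul_sum, ← Finset.sum_div, Finset.sum_const,
      Finset.card_range, nsmul_eq_mul] at h2
    linarith
  have hmono : ∑ i ∈ Ico I K, (((A.n i : ℝ) - lam * w i) ^ 2 + (A.n i : ℝ)) ≤
      ∑ i ∈ Ico I K', (((A.n i : ℝ) - lam * w i) ^ 2 + (A.n i : ℝ)) :=
    Finset.sum_le_sum_of_subset_of_nonneg (Finset.Ico_subset_Ico le_rfl hKK')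
      (fun i _ _ => add_nonneg (sq_nonneg _) (Nat.cast_nonneg _))
  rw [Finset.sum_add_distrib (s := Ico I K')] at hmono
  have hdr : d = lam * V * b + r := by rw [hr]; ring
  have hy3' : Q / (2 * D) + 2 * (r ^ 2 / (2 * D)) ≤ Q / 2 := by
    have : Q / (2 * D) + 2 * (r ^ 2 / (2 * D)) = (Q + 2 * r ^ 2) / (2 * D) := by ring
    rw [this]; exact hy3
  have hy2' : -∑ j ∈ range J, ((A.m j : ℝ) - lam * V * β j) ≤
      Q / (2 * D) + r ^ 2 / (2 * D) + J * D / 2 := by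
    have : (Q + r ^ 2) / (2 * D) = Q / (2 * D) + r ^ 2 / (2 * D) := by ring
    rw [← this]; exact hy2
  have hgoal : lam * (V * (3 * b - ∑ j ∈ range J, β j) - ∑ i ∈ range I, w i) =
      3 * (lam * V * b) - lam * V * (∑ j ∈ range J, β j) - lam * ∑ i ∈ range I, w i := by ring
  rw [hgoal]
  have h3d : 3 * d = 3 * (lam * V * b) + 3 * r := by rw [hdr]; ring
  have hCe : (9 + (J:ℝ)) * D / 2 + I / 2 = 9 * D / 2 + J * D / 2 + I / 2 := by ring
  rw [hCe]
  linarith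

end Stair97
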