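import Pool.Agent.Stair97.FinMax

/-!
The volume bound: a level at which the criterion holds is at least `sqrt (z / Vol)`.
-/

namespace Stair97

open Finset Filter Topology

/-- The vector with entries `f j` for `j < J` and zero elsewhere. -/
noncomputable def ofFn (J : ℕ) (f : ℕ → ℕ) : ℕ →₀ ℕ :=
  Finsupp.onFinset (range J) (fun j => if j ∈ range J then f j else 0) (by
    intro a ha
    by_contra h
    simp [h] at ha)

theorem ofFn_sum {M : Type*} [AddCommMonoid M] (J : ℕ) (f : ℕ → ℕ) (g : ℕ → ℕ → M)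
    (hg : ∀ j, g j 0 = 0) : (ofFn J f).sum g = ∑ j ∈ range J, g j (f j) := by
  unfold ofFn
  rw [Finsupp.onFinset_sum _ hg]
  apply Finset.sum_congr rfl
  intro j hj
  rw [if_pos hj]

/-- Truncated volume inequality. -/
theorem vol_trunc {b : ℝ} {β : ℕ → ℝ} {w : ℕ → ℝ} {z L lam S : ℝ} (hb : 0 < b)
    (hβ : ∀ j, 0 ≤ β j) (hw : ∀ i, 0 ≤ w i) (hS : ∀ J, ∑ j ∈ range J, (β j) ^ 2 ≤ S)
    (hz : ∀ I, ∑ i ∈ range I, (w i) ^ 2 ≤ z) (hL : Fits b β w L) (hL0 : 0 ≤ L) (hlam : 0 ≤ lam)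
    (hbig : z < lam ^ 2 * (b ^ 2 - S)) (I J : ℕ) :
    ∑ i ∈ range I, (w i) ^ 2 ≤ L * lam * (b ^ 2 - ∑ j ∈ range J, (β j) ^ 2) := by
  by_contra hcon
  push Not at hcon
  set zI := ∑ i ∈ range I, (w i) ^ 2 with hzI
  set SJ := ∑ j ∈ range J, (β j) ^ 2 with hSJ
  set BJ := ∑ j ∈ range J, β j with hBJ
  set WI := ∑ i ∈ range I, w i with hWI
  have hBJ0 : 0 ≤ BJ := Finset.sum_nonneg (fun j _ => hβ j)
  have hWI0 : 0 ≤ WI := Finset.sum_nonneg (fun j _ => hw j)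
  set e1 := lam ^ 2 * (b ^ 2 - S) - z with he1
  have he1p : 0 < e1 := by rw [he1]; linarith
  set e2 := zI - L * lam * (b ^ 2 - SJ) with he2
  have he2p : 0 < e2 := by rw [he2]; linarith
  obtain ⟨t, ht⟩ := exists_nat_gt (max ((lam * BJ + WI) / e1) ((WI + L * (b + BJ)) / e2))
  have ht1 : (lam * BJ + WI) / e1 < t := lt_of_le_of_lt (le_max_left _ _) ht
  have ht2 : (WI + L * (b + BJ)) / e2 < t := lt_of_le_of_lt (le_max_right _ _) ht
  rw [div_lt_iff₀ he1p] at ht1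
  rw [div_lt_iff₀ he2p] at ht2
  have ht0 : (0:ℝ) ≤ t := Nat.cast_nonneg t
  set A : Cls := ⟨⌈(t:ℝ) * lam * b⌉₊, ofFn J (fun j => ⌊(t:ℝ) * lam * β j⌋₊),
    ofFn I (fun i => ⌊(t:ℝ) * w i⌋₊)⟩ with hA
  have hd1 : (t:ℝ) * lam * b ≤ (A.d : ℝ) := Nat.le_ceil _
  have hd2 : (A.d : ℝ) < (t:ℝ) * lam * b + 1 := Nat.ceil_lt_add_one (by positivity)
  have hm1 : ∀ j, ((⌊(t:ℝ) * lam * β j⌋₊ : ℕ) : ℝ) ≤ (t:ℝ) * lam * β j := fun j =>
    Nat.floor_le (by have := hβ j; positivity)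
  have hm2 : ∀ j, (t:ℝ) * lam * β j - 1 < ((⌊(t:ℝ) * lam * β j⌋₊ : ℕ) : ℝ) := fun j =>
    Nat.sub_one_lt_floor _
  have hn1 : ∀ i, ((⌊(t:ℝ) * w i⌋₊ : ℕ) : ℝ) ≤ (t:ℝ) * w i := fun i =>
    Nat.floor_le (by have := hw i; positivity)
  have hn2 : ∀ i, (t:ℝ) * w i - 1 < ((⌊(t:ℝ) * w i⌋₊ : ℕ) : ℝ) := fun i =>
    Nat.sub_one_lt_floor _
  -- the index
  have hT : Tst A := by
    have hreal : ((A.m.sum (fun _ x => x ^ 2 + x) + A.n.sum (fun _ x => x ^ 2 + x) : ℕ) : ℝ) ≤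
        ((A.d ^ 2 + 3 * A.d : ℕ) : ℝ) := by
      rw [hA]
      simp only
      rw [ofFn_sum _ _ _ (by simp), ofFn_sum _ _ _ (by simp)]
      push_cast
      have s1 : ∑ j ∈ range J, (((⌊(t:ℝ) * lam * β j⌋₊ : ℕ) : ℝ) ^ 2 + ((⌊(t:ℝ) * lam * β j⌋₊ : ℕ) : ℝ))
          ≤ ∑ j ∈ range J, ((t:ℝ) ^ 2 * lam ^ 2 * (β j) ^ 2 + (t:ℝ) * lam * β j) := by
        apply Finset.sum_le_sum
        intro j _
        have h1 := hm1 j
        have h0 : (0:ℝ) ≤ ((⌊(t:ℝ) * lam * β j⌋₊ : ℕ) : ℝ) := Nat.cast_nonneg _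
        have h2 := pow_le_pow_left₀ h0 h1 2
        have h3 : ((t:ℝ) * lam * β j) ^ 2 = (t:ℝ) ^ 2 * lam ^ 2 * (β j) ^ 2 := by ring
        rw [h3] at h2
        linarith
      have s2 : ∑ i ∈ range I, (((⌊(t:ℝ) * w i⌋₊ : ℕ) : ℝ) ^ 2 + ((⌊(t:ℝ) * w i⌋₊ : ℕ) : ℝ))
          ≤ ∑ i ∈ range I, ((t:ℝ) ^ 2 * (w i) ^ 2 + (t:ℝ) * w i) := by
        apply Finset.sum_le_sum
        intro j _
        have h1 := hn1 j
        have h0 : (0:ℝ) ≤ ((⌊(t:ℝ) * w j⌋₊ : ℕ) : ℝ) := Nat.cast_nonneg _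
        have h2 := pow_le_pow_left₀ h0 h1 2
        have h3 : ((t:ℝ) * w j) ^ 2 = (t:ℝ) ^ 2 * (w j) ^ 2 := by ring
        rw [h3] at h2
        linarith
      rw [Finset.sum_add_distrib (f := fun j => (t:ℝ) ^ 2 * lam ^ 2 * (β j) ^ 2), ← Finset.mul_sum,
        ← Finset.mul_sum, ← hSJ, ← hBJ] at s1
      rw [Finset.sum_add_distrib (f := fun j => (t:ℝ) ^ 2 * (w j) ^ 2), ← Finset.mul_sum,
        ← Finset.mul_sum, ← hzI, ← hWI] at s2
      have h4 : ((t:ℝ) * lam * b) ^ 2 ≤ (A.d : ℝ) ^ 2 := pow_le_pow_left₀ (by positivity) hd1 2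
      have h5 : (0:ℝ) ≤ (A.d : ℝ) := Nat.cast_nonneg _
      have h6 : SJ ≤ S := hS J
      have h7 : zI ≤ z := hz I
      have h8 : (t:ℝ) ^ 2 * lam ^ 2 * SJ ≤ (t:ℝ) ^ 2 * lam ^ 2 * S :=
        mul_le_mul_of_nonneg_left h6 (by positivity)
      have h9 : (t:ℝ) ^ 2 * zI ≤ (t:ℝ) ^ 2 * z := mul_le_mul_of_nonneg_left h7 (by positivity)
      have h10 : (t:ℝ) * (lam * BJ + WI) ≤ (t:ℝ) * (t * e1) := mul_le_mul_of_nonneg_left ht1.le ht0
      have h11 : (t:ℝ) * (t * e1) = ((t:ℝ) * lam * b) ^ 2 - (t:ℝ) ^ 2 * lam ^ 2 * S - (t:ℝ) ^ 2 * z := by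
        rw [he1]; ring
      have h12 : ((⌈(t:ℝ) * lam * b⌉₊ : ℕ) : ℝ) = (A.d : ℝ) := rfl
      rw [h12]
      linarith
    exact_mod_cast hreal
  have hfit := hL A hT
  have hW : (t:ℝ) * zI - WI ≤ WW w A.n := by
    unfold WW
    rw [hA]
    simp only
    rw [ofFn_sum _ _ _ (by simp)]
    have : ∑ i ∈ range I, ((t:ℝ) * (w i) ^ 2 - w i) ≤
        ∑ i ∈ range I, w i * ((⌊(t:ℝ) * w i⌋₊ : ℕ) : ℝ) := by
      apply Finset.sum_le_sum
      intro i _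
      have := mul_le_mul_of_nonneg_left (hn2 i).le (hw i)
      linarith [this, show w i * ((t:ℝ) * w i - 1) = (t:ℝ) * (w i) ^ 2 - w i by ring]
    rw [Finset.sum_sub_distrib, ← Finset.mul_sum] at this
    exact this
  have hP : PP b β A ≤ (t:ℝ) * lam * (b ^ 2 - SJ) + (b + BJ) := by
    unfold PP
    rw [hA]
    simp only
    rw [ofFn_sum _ _ _ (by simp)]
    have h1 : ∑ j ∈ range J, ((t:ℝ) * lam * (β j) ^ 2 - β j) ≤
        ∑ j ∈ range J, β j * ((⌊(t:ℝ) * lam * β j⌋₊ : ℕ) : ℝ) := by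
      apply Finset.sum_le_sum
      intro j _
      have := mul_le_mul_of_nonneg_left (hm2 j).le (hβ j)
      linarith [this, show β j * ((t:ℝ) * lam * β j - 1) = (t:ℝ) * lam * (β j) ^ 2 - β j by ring]
    rw [Finset.sum_sub_distrib, ← Finset.mul_sum] at h1
    have h2 : b * ((⌈(t:ℝ) * lam * b⌉₊ : ℕ) : ℝ) ≤ b * ((t:ℝ) * lam * b + 1) :=
      mul_le_mul_of_nonneg_left hd2.le hb.le
    rw [← hSJ, ← hBJ] at h1
    have h3 : b * ((t:ℝ) * lam * b + 1) - ((t:ℝ) * lam * SJ - BJ) =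
        (t:ℝ) * lam * (b ^ 2 - SJ) + (b + BJ) := by ring
    linarith
  have hLP := mul_le_mul_of_nonneg_left hP hL0
  have : (t:ℝ) * e2 ≤ WI + L * (b + BJ) := by
    have e : (t:ℝ) * e2 = (t:ℝ) * zI - L * ((t:ℝ) * lam * (b ^ 2 - SJ)) := by rw [he2]; ring
    have e' : L * ((t:ℝ) * lam * (b ^ 2 - SJ) + (b + BJ)) =
        L * ((t:ℝ) * lam * (b ^ 2 - SJ)) + L * (b + BJ) := by ring
    linarith
  linarith

/-- The volume bound. -/
theorem vol_le {b : ℝ} {β : ℕ → ℝ} {w : ℕ → ℝ} {z L : ℝ} (hb : 0 < b) (hz0 : 0 < z)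
    (hβ : ∀ j, 0 ≤ β j) (hβs : Summable (fun j => (β j) ^ 2))
    (hV : ∑' j, (β j) ^ 2 < b ^ 2) (hw : ∀ i, 0 ≤ w i) (hws : HasSum (fun i => (w i) ^ 2) z)
    (hL : Fits b β w L) (hL0 : 0 ≤ L) :
    Real.sqrt (z / (b ^ 2 - ∑' j, (β j) ^ 2)) ≤ L := by
  set S := ∑' j, (β j) ^ 2 with hS
  set U := b ^ 2 - S with hU
  have hUp : 0 < U := by rw [hU]; linarith
  set V := Real.sqrt (z / U) with hVd
  have hVp : 0 < V := Real.sqrt_pos.2 (by positivity)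
  have hV2 : V ^ 2 = z / U := Real.sq_sqrt (by positivity)
  have hV2U : V ^ 2 * U = z := by rw [hV2]; field_simp
  -- for every lam > V we get z ≤ L lam U
  have key : ∀ lam : ℝ, V < lam → z ≤ L * lam * U := by
    intro lam hlam
    have hlam0 : 0 < lam := lt_trans hVp hlam
    have hbig : z < lam ^ 2 * U := by
      rw [← hV2U]
      apply mul_lt_mul_of_pos_right _ hUp
      exact pow_lt_pow_left₀ hlam hVp.le two_ne_zero
    have h1 : ∀ I J : ℕ, ∑ i ∈ range I, (w i) ^ 2 ≤ L * lam * (b ^ 2 - ∑ j ∈ range J, (β j) ^ 2) :=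
      fun I J => vol_trunc hb hβ hw (fun J => hβs.sum_le_tsum _ (fun j _ => sq_nonneg _))
        (fun I => sum_le_hasSum _ (fun i _ => sq_nonneg _) hws) hL hL0 hlam0.le hbig I J
    have h2 : ∀ I : ℕ, ∑ i ∈ range I, (w i) ^ 2 ≤ L * lam * (b ^ 2 - S) := by
      intro I
      have hlim : Tendsto (fun J => L * lam * (b ^ 2 - ∑ j ∈ range J, (β j) ^ 2)) atTop
          (𝓝 (L * lam * (b ^ 2 - S))) := by
        apply Tendsto.const_mul
        apply Tendsto.const_sub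
        exact hβs.hasSum.tendsto_sum_nat
      exact ge_of_tendsto hlim (Eventually.of_forall (fun J => h1 I J))
    have hlim2 : Tendsto (fun I => ∑ i ∈ range I, (w i) ^ 2) atTop (𝓝 z) := hws.tendsto_sum_nat
    exact le_of_tendsto hlim2 (Eventually.of_forall h2)
  have h3 : z ≤ L * V * U := by
    have hlim : Tendsto (fun lam : ℝ => L * lam * U) (𝓝[>] V) (𝓝 (L * V * U)) := by
      have : Continuous (fun lam : ℝ => L * lam * U) := by fun_prop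
      exact (this.tendsto V).mono_left nhdsWithin_le_nhds
    apply ge_of_tendsto hlim
    filter_upwards [self_mem_nhdsWithin] with lam hlam
    exact key lam hlam
  rw [← hV2U] at h3
  have e1 : V ^ 2 * U = V * (V * U) := by ring
  have e2 : L * V * U = L * (V * U) := by ring
  rw [e1, e2] at h3
  exact le_of_mul_le_mul_right h3 (mul_pos hVp hUp)

end Stair97
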